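import Pool.Agent.H52.BH.CIA

/-!
# Row A_IC: the oscillatory integral at a complex place, part 5: pointwise inequalities
-/

set_option autoImplicit false

open MeasureTheory Set Filter Complex
open scoped Topology

namespace Pool.Agent.H52.BH

open Pool.Agent.H29.BH

/-! ### Scalar inequalities -/

section Scalar

variable {p u s a lam b κ : ℝ}

theorem scal_one (hp : 0 < p) (hu : 0 < u) (hs : 0 < s) (hl : 0 < lam) (hb1 : b < 1) (hb0 : 0 ≤ b)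
    (hκ : κ = 2 - 2 * b) (h1 : s * u ≤ p) :
    lam ^ 2 / (p ^ 2 + lam ^ 2) ≤ (lam / s) ^ κ * u ^ (-κ) := by
  have hx0 : 0 < lam ^ 2 / (p ^ 2 + lam ^ 2) := by positivity
  have hx1 : lam ^ 2 / (p ^ 2 + lam ^ 2) ≤ 1 := by
    rw [div_le_one (by positivity)]
    have := sq_nonneg p
    linarith
  have hx2 : lam ^ 2 / (p ^ 2 + lam ^ 2) ≤ (lam / p) ^ 2 := by
    rw [div_pow]
    gcongr
    have := sq_nonneg lam
    linarith
  have hk : 0 ≤ κ := by linarith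
  have e1 : (lam ^ 2 / (p ^ 2 + lam ^ 2)) ≤ (lam ^ 2 / (p ^ 2 + lam ^ 2)) ^ (1 - b) := by
    have := Real.rpow_le_rpow_of_exponent_ge hx0 hx1 (show 1 - b ≤ 1 by linarith)
    rwa [Real.rpow_one] at this
  have e2 : (lam ^ 2 / (p ^ 2 + lam ^ 2)) ^ (1 - b) ≤ ((lam / p) ^ 2) ^ (1 - b) :=
    Real.rpow_le_rpow hx0.le hx2 (by linarith)
  have e3 : ((lam / p) ^ 2) ^ (1 - b) = (lam / p) ^ κ := by
    rw [← Real.rpow_natCast, ← Real.rpow_mul (by positivity)]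
    congr 1
    rw [hκ]
    push_cast
    ring
  have e4 : (lam / p) ^ κ ≤ (lam / (s * u)) ^ κ := by
    apply Real.rpow_le_rpow (by positivity) _ hk
    gcongr
  have e5 : (lam / (s * u)) ^ κ = (lam / s) ^ κ * u ^ (-κ) := by
    rw [Real.rpow_neg hu.le, ← Real.inv_rpow hu.le, ← Real.mul_rpow (by positivity) (by positivity)]
    congr 1
    field_simp
  calc _ ≤ _ := e1
    _ ≤ _ := e2
    _ = _ := e3
    _ ≤ _ := e4
    _ = _ := e5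

theorem scal_two (hp : 0 < p) (hu : 0 < u) (hs : 0 < s) (h1 : s * u ≤ p) :
    p / (p ^ 2 + lam ^ 2) ≤ 1 / s * u⁻¹ := by
  calc p / (p ^ 2 + lam ^ 2) ≤ p / p ^ 2 := by
        gcongr
        have := sq_nonneg lam
        linarith
    _ = 1 / p := by
      rw [sq]
      field_simp
    _ ≤ 1 / (s * u) := by gcongr
    _ = _ := by
      rw [one_div, mul_inv, one_div]

theorem scal_three (hp : 0 < p) (hl : 0 < lam) (hb1 : b < 1) (hb0 : 0 ≤ b)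
    (hκ : κ = 2 - 2 * b) : 1 / (p ^ 2 + lam ^ 2) ≤ lam ^ (-(2 * b)) * p ^ (-κ) := by
  have hQ0 : 0 < p ^ 2 + lam ^ 2 := by positivity
  have e1 : p ^ κ * lam ^ (2 * b) ≤ p ^ 2 + lam ^ 2 := by
    have h1 : (p ^ 2) ^ (1 - b) ≤ (p ^ 2 + lam ^ 2) ^ (1 - b) :=
      Real.rpow_le_rpow (by positivity) (by nlinarith [sq_nonneg lam]) (by linarith)
    have h2 : (lam ^ 2) ^ b ≤ (p ^ 2 + lam ^ 2) ^ b :=
      Real.rpow_le_rpow (by positivity) (by nlinarith [sq_nonneg p]) hb0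
    have h3 : (p ^ 2 + lam ^ 2) ^ (1 - b) * (p ^ 2 + lam ^ 2) ^ b = p ^ 2 + lam ^ 2 := by
      rw [← Real.rpow_add hQ0]
      simp
    have h4 : (p ^ 2) ^ (1 - b) = p ^ κ := by
      rw [← Real.rpow_natCast, ← Real.rpow_mul hp.le]
      congr 1
      rw [hκ]
      push_cast
      ring
    have h5 : (lam ^ 2) ^ b = lam ^ (2 * b) := by
      rw [← Real.rpow_natCast, ← Real.rpow_mul hl.le]
      congr 1
    rw [← h4, ← h5]
    calc _ ≤ (p ^ 2 + lam ^ 2) ^ (1 - b) * (p ^ 2 + lam ^ 2) ^ b := by gcongr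
      _ = _ := h3
  rw [Real.rpow_neg hl.le, Real.rpow_neg hp.le, ← mul_inv, one_div]
  apply inv_anti₀ (by positivity)
  rw [mul_comm]
  exact e1

theorem scal_four (hp : 0 < p) (hu : 0 < u) (hs : 0 < s) (hl : 0 < lam) (hb1 : b ≤ 1 / 2)
    (hb0 : 0 ≤ b) (hκ : κ = 2 - 2 * b) (h1 : s * u ≤ p) (h2 : a * u ^ 2 ≤ p) :
    (2 * √(a * p) + 2 * s) / (p ^ 2 + lam ^ 2) ≤
      4 * (lam ^ (-(2 * b)) * s ^ (1 - κ)) * u ^ (-κ) := by
  have hk : 1 ≤ κ := by linarith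
  have h3 := scal_three (p := p) (lam := lam) hp hl (by linarith) hb0 hκ
  have e0 : 0 < lam ^ (-(2 * b)) := Real.rpow_pos_of_pos hl _
  have e1 : s * p ^ (-κ) ≤ s ^ (1 - κ) * u ^ (-κ) := by
    have h4 : p ^ (-κ) ≤ (s * u) ^ (-κ) :=
      Real.rpow_le_rpow_of_nonpos (by positivity) h1 (by linarith)
    have h5 : s * (s * u) ^ (-κ) = s ^ (1 - κ) * u ^ (-κ) := by
      rw [Real.mul_rpow hs.le hu.le, sub_eq_add_neg, Real.rpow_add hs, Real.rpow_one]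
      ring
    rw [← h5]
    gcongr
  have e2 : √(a * p) * p ^ (-κ) ≤ s ^ (1 - κ) * u ^ (-κ) := by
    have h4 : √(a * p) ≤ p / u := by
      rw [Real.sqrt_le_left (by positivity), div_pow, le_div_iff₀ (by positivity)]
      calc a * p * u ^ 2 = (a * u ^ 2) * p := by ring
        _ ≤ p * p := by gcongr
        _ = p ^ 2 := by ring
    have h5 : p / u * p ^ (-κ) = u⁻¹ * p ^ (1 - κ) := by
      rw [sub_eq_add_neg, Real.rpow_add hp, Real.rpow_one, div_eq_mul_inv]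
      ring
    have h6 : p ^ (1 - κ) ≤ (s * u) ^ (1 - κ) :=
      Real.rpow_le_rpow_of_nonpos (by positivity) h1 (by linarith)
    have h7 : u⁻¹ * (s * u) ^ (1 - κ) = s ^ (1 - κ) * u ^ (-κ) := by
      rw [Real.mul_rpow hs.le hu.le]
      have h8 : u ^ (1 - κ) = u * u ^ (-κ) := by
        rw [sub_eq_add_neg, Real.rpow_add hu, Real.rpow_one]
      rw [h8]
      field_simp
    calc √(a * p) * p ^ (-κ) ≤ p / u * p ^ (-κ) := by gcongr
      _ = u⁻¹ * p ^ (1 - κ) := h5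
      _ ≤ u⁻¹ * (s * u) ^ (1 - κ) := by gcongr
      _ = _ := h7
  calc (2 * √(a * p) + 2 * s) / (p ^ 2 + lam ^ 2)
      = (2 * √(a * p) + 2 * s) * (1 / (p ^ 2 + lam ^ 2)) := by ring
    _ ≤ (2 * √(a * p) + 2 * s) * (lam ^ (-(2 * b)) * p ^ (-κ)) := by gcongr
    _ = lam ^ (-(2 * b)) * (2 * (√(a * p) * p ^ (-κ)) + 2 * (s * p ^ (-κ))) := by ring
    _ ≤ lam ^ (-(2 * b)) * (2 * (s ^ (1 - κ) * u ^ (-κ)) + 2 * (s ^ (1 - κ) * u ^ (-κ))) := by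
        gcongr
    _ = _ := by ring

end Scalar

/-- the pointwise bounds for the two integrands -/
theorem pt_bounds (c : Fin 4 → ℂ) {s lam b κ : ℝ} (hs : 0 < s) (hl : 0 < lam) (hb1 : b ≤ 1 / 2)
    (hb0 : 0 ≤ b) (hκ : κ = 2 - 2 * b) (hD : s = √‖cbe c ^ 2 - cal c * cga c‖) {ρ₁ ρ₂ z : ℂ}
    (hr : √‖cbe c ^ 2 - cal c * cga c‖ * min ‖z - ρ₁‖ ‖z - ρ₂‖ ≤
      ‖cal c * z ^ 2 + 2 * cbe c * z + cga c‖ ∧
      ‖cal c‖ * min ‖z - ρ₁‖ ‖z - ρ₂‖ ^ 2 ≤ ‖cal c * z ^ 2 + 2 * cbe c * z + cga c‖)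
    (h1 : z ≠ ρ₁) (h2 : z ≠ ρ₂) :
    lam ^ 2 / (‖cP c z‖ ^ 2 + lam ^ 2) ≤ (lam / s) ^ κ * Vk κ ρ₁ ρ₂ z ∧
    (‖cP c z‖ + ‖cP' c z‖) / (‖cP c z‖ ^ 2 + lam ^ 2) ≤
      (1 / s + 4 * (lam ^ (-(2 * b)) * s ^ (1 - κ))) * Vk κ ρ₁ ρ₂ z := by
  have hk1 : 1 ≤ κ := by linarith
  set u := min ‖z - ρ₁‖ ‖z - ρ₂‖ with hu
  have hu0 : 0 < u := lt_min (norm_pos_iff.2 (sub_ne_zero.2 h1)) (norm_pos_iff.2 (sub_ne_zero.2 h2))
  set p := ‖cP c z‖ with hp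
  have hr1 : s * u ≤ p := by
    rw [hD]
    exact hr.1
  have hr2 : ‖cal c‖ * u ^ 2 ≤ p := hr.2
  have hp0 : 0 < p := lt_of_lt_of_le (by positivity) hr1
  obtain ⟨hV1, hV2⟩ := Vk_ge (κ := κ) (by linarith) h1 h2
  set V := Vk κ ρ₁ ρ₂ z with hV
  have hV3 : u⁻¹ ≤ V := by
    rcases le_total u 1 with h | h
    · have h3 := Real.rpow_le_rpow_of_exponent_ge hu0 h (show -κ ≤ -1 by linarith)
      rw [Real.rpow_neg_one] at h3
      exact h3.trans hV1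
    · exact (inv_le_one_of_one_le₀ h).trans hV2
  have hP' : ‖cP' c z‖ ≤ 2 * √(‖cal c‖ * p) + 2 * s := by
    have e1 : ‖cP' c z‖ ^ 2 ≤ (2 * √(‖cal c‖ * p) + 2 * s) ^ 2 := by
      rw [← norm_pow, cP'_sq, norm_mul, Complex.norm_ofNat]
      have e2 : ‖cal c * cP c z + (cbe c ^ 2 - cal c * cga c)‖ ≤ ‖cal c‖ * p + s ^ 2 := by
        refine (norm_add_le _ _).trans ?_
        rw [norm_mul, hD, Real.sq_sqrt (norm_nonneg _)]
      have e3 : √(‖cal c‖ * p) ^ 2 = ‖cal c‖ * p := Real.sq_sqrt (by positivity)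
      have e4 : 0 ≤ √(‖cal c‖ * p) * s := by positivity
      nlinarith
    exact (sq_le_sq₀ (norm_nonneg _) (by positivity)).1 e1
  constructor
  · refine (scal_one hp0 hu0 hs hl (by linarith) hb0 hκ hr1).trans ?_
    gcongr
  · have e1 := scal_two (lam := lam) hp0 hu0 hs hr1
    have e2 := scal_four hp0 hu0 hs hl hb1 hb0 hκ hr1 hr2
    have e3 : ‖cP' c z‖ / (p ^ 2 + lam ^ 2) ≤
        (2 * √(‖cal c‖ * p) + 2 * s) / (p ^ 2 + lam ^ 2) := by gcongr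
    rw [add_div, add_mul]
    have e4 : 1 / s * u⁻¹ ≤ 1 / s * V := by gcongr
    have e5 : 4 * (lam ^ (-(2 * b)) * s ^ (1 - κ)) * u ^ (-κ) ≤
        4 * (lam ^ (-(2 * b)) * s ^ (1 - κ)) * V := by gcongr
    linarith

theorem Vk_nonneg (κ : ℝ) (ρ₁ ρ₂ z : ℂ) : 0 ≤ Vk κ ρ₁ ρ₂ z := by
  have g0 : ∀ w : ℂ, 0 ≤ (Metric.ball (0 : ℂ) 1).indicator (fun z => ‖z‖ ^ (-κ)) w :=
    fun w => indicator_nonneg (fun z _ => by positivity) w
  unfold Vk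
  linarith [g0 (z - ρ₁), g0 (z - ρ₂)]

theorem cx_cplx (b : Fin 4 → ℂ) : cx b = ‖cbe b ^ 2 - cal b * cga b‖ := by
  rw [cdisc]
  unfold cx
  rw [norm_mul, norm_mul, norm_mul]

theorem cx_le_one' {b : Fin 4 → ℂ} (hb : ∀ i, ‖b i‖ ≤ 1 / 8) : cx b ≤ 1 := by
  unfold cx
  have h : ∀ i j, ‖b i - b j‖ ≤ 1 := fun i j => by
    have := norm_sub_le (b i) (b j)
    have := hb i
    have := hb j
    linarith
  calc ‖b 0 - b 2‖ * ‖b 0 - b 3‖ * ‖b 1 - b 2‖ * ‖b 1 - b 3‖ ≤ 1 * 1 * 1 * 1 := by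
        gcongr <;> exact h _ _
    _ = 1 := by norm_num

/-- an integral over the plane is bounded by the integral of a majorant over the ball -/
theorem norm_int_ball {f : ℂ → ℂ} {u : ℂ → ℝ} (hf0 : ∀ z, 3 < ‖z‖ → f z = 0)
    (hb : ∀ᵐ z, ‖f z‖ ≤ u z) (hu : IntegrableOn u (Metric.closedBall 0 3)) :
    ‖∫ z, f z‖ ≤ ∫ z in Metric.closedBall (0 : ℂ) 3, u z := by
  have h1 : ∫ z, f z = ∫ z in Metric.closedBall (0 : ℂ) 3, f z := by
    rw [setIntegral_eq_integral_of_forall_compl_eq_zero]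
    intro z hz
    apply hf0
    simpa using hz
  rw [h1]
  exact norm_integral_le_of_norm_le hu (ae_restrict_of_ae hb)

/-- the final numerical inequality -/
theorem fin_scal {n s lam b κ : ℝ} (hn : 1 ≤ n) (hs : 0 < s) (hs1 : s ≤ 1) (hb1 : b ≤ 1 / 2)
    (hb0 : 0 < b) (hκ : κ = 2 - 2 * b) (hl : lam = √(s / n)) :
    (lam / s) ^ κ ≤ n ^ (-(1 - b)) * s⁻¹ ∧
    1 / n * (1 / s + 4 * (lam ^ (-(2 * b)) * s ^ (1 - κ))) ≤ 5 * (n ^ (-(1 - b)) * s⁻¹) := by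
  have hn0 : 0 < n := by linarith
  have hsn : 0 < s / n := by positivity
  have hl0 : 0 < lam := by
    rw [hl]
    exact Real.sqrt_pos.2 hsn
  have hlp : ∀ x : ℝ, lam ^ (2 * x) = (s / n) ^ x := by
    intro x
    rw [Real.rpow_mul hl0.le]
    congr 1
    rw [hl, Real.rpow_two, Real.sq_sqrt hsn.le]
  have hs2 : s ^ (-(1 - b)) ≤ s⁻¹ := by
    rw [← Real.rpow_neg_one s]
    exact Real.rpow_le_rpow_of_exponent_ge hs hs1 (by linarith)
  have hnp : 0 < n ^ (-(1 - b)) := Real.rpow_pos_of_pos hn0 _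
  have e1 : (lam / s) ^ κ = n ^ (-(1 - b)) * s ^ (-(1 - b)) := by
    rw [Real.div_rpow hl0.le hs.le, show κ = 2 * (1 - b) by rw [hκ]; ring, hlp,
      Real.div_rpow hs.le hn0.le, Real.rpow_neg hn0.le, Real.rpow_neg hs.le,
      show 2 * (1 - b) = (1 - b) + (1 - b) by ring, Real.rpow_add hs]
    have : s ^ (1 - b) ≠ 0 := (Real.rpow_pos_of_pos hs _).ne'
    field_simp
  have e2 : 1 / n * (lam ^ (-(2 * b)) * s ^ (1 - κ)) = n ^ (-(1 - b)) * s ^ (-(1 - b)) := by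
    rw [show -(2 * b) = 2 * (-b) by ring, hlp, Real.div_rpow hs.le hn0.le,
      show -(1 - b) = -1 - -b by ring, Real.rpow_sub hn0, Real.rpow_neg_one,
      show 1 - κ = (-1 - -b) - -b by rw [hκ]; ring, Real.rpow_sub hs (-1 - -b) (-b)]
    have : s ^ (-b) ≠ 0 := (Real.rpow_pos_of_pos hs _).ne'
    have : n ^ (-b) ≠ 0 := (Real.rpow_pos_of_pos hn0 _).ne'
    field_simp
  have e3 : 1 / n ≤ n ^ (-(1 - b)) := by
    rw [one_div, ← Real.rpow_neg_one n]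
    exact Real.rpow_le_rpow_of_exponent_le hn (by linarith)
  refine ⟨?_, ?_⟩
  · rw [e1]
    gcongr
  · have e4 : 1 / n * (1 / s + 4 * (lam ^ (-(2 * b)) * s ^ (1 - κ))) =
        1 / n * (1 / s) + 4 * (1 / n * (lam ^ (-(2 * b)) * s ^ (1 - κ))) := by ring
    rw [e4, e2]
    have e5 : 1 / n * (1 / s) ≤ n ^ (-(1 - b)) * s⁻¹ := by
      rw [one_div s]
      gcongr
    have e6 : n ^ (-(1 - b)) * s ^ (-(1 - b)) ≤ n ^ (-(1 - b)) * s⁻¹ := by gcongr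
    linarith

end Pool.Agent.H52.BH
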