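import Pool.Agent.H52.BH.CID
import Pool.Agent.H52.BH.CIE

/-!
# Row A_IC: the oscillatory integral at a complex place, part 6
-/

set_option autoImplicit false

open MeasureTheory Set Filter Complex
open scoped Topology

namespace Pool.Agent.H52.BH

open Pool.Agent.H29.BH
open Pool.Agent.H29.DW (dg Rl)

/-- (AC) the oscillatory integral at a complex place -/
theorem pf_A_IC : A_IC := by
  intro ε hε hε4
  set b : ℝ := 2 * ε with hbdef
  have hb0 : 0 < b := by positivity
  have hb1 : b ≤ 1 / 2 := by linarith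
  set κ : ℝ := 2 - 2 * b with hκ
  obtain ⟨CV, hCV0, hCV⟩ := int_Vk κ (by linarith)
  set M : ℝ := Real.exp 12 with hM
  have hM0 : 0 < M := Real.exp_pos _
  refine ⟨3 * (M * CV + 5 * (2486 * M) * CV) + 3 * (M * 30), by positivity, ?_⟩
  intro k μ B g c hQ hB hg hc hcx
  obtain ⟨hG, hG'⟩ := hg.cplx rfl
  have hcb := hc.le
  have hmz : mz false = volume := by
    unfold mz
    simp
  rw [hmz]
  set σ := μ.re with hσdef
  have hσ : |σ| ≤ 8 := hQ.re
  set ν : ℂ := (μ.im : ℂ) - (k : ℂ) * I with hν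
  have hRl : ∀ z, Rl false z := fun z => by
    intro h
    simp at h
  have hgb : ∀ z, ‖g z‖ ≤ B := fun z => hg.bound z (hRl z)
  have hgs : ∀ z, g z ≠ 0 → 1 / 2 ≤ ‖z‖ ∧ ‖z‖ ≤ 3 := fun z => hg.supp z (hRl z)
  have h0 : ∀ z, ‖z‖ < 1 / 2 → g z = 0 := fun z hz => by
    by_contra h
    linarith [(hgs z h).1]
  have h3 : ∀ z, 3 < ‖z‖ → g z = 0 := fun z hz => by
    by_contra h
    linarith [(hgs z h).2]
  have hcx1 : cx c ≤ 1 := cx_le_one' hcb
  have hcx0 : 0 < cx c := lt_of_le_of_ne (by unfold cx; positivity) (Ne.symm hcx)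
  have hTe : ∀ z : ℂ, g z * g4 k μ c z = cT g c σ ν z := by
    intro z
    rcases lt_or_ge ‖z‖ (1 / 2) with hz | hz
    · unfold cT
      rw [h0 z hz]
      ring
    · rw [g4_cplx k μ hcb (by linarith)]
      unfold cT cA
      ring
  rw [integral_congr_ae (ae_of_all _ hTe)]
  have hTs := sm_cT hcb σ ν hG h0
  have hT3 : ∀ z, 3 < ‖z‖ → cT g c σ ν z = 0 := fun z hz => by
    unfold cT
    rw [h3 z hz]
    ring
  have hTb : ∀ z, ‖cT g c σ ν z‖ ≤ M * B := by
    intro z
    unfold cT
    rcases lt_or_ge ‖z‖ (1 / 2) with hz | hz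
    · rw [h0 z hz]
      simp only [zero_mul, norm_zero]
      positivity
    · rw [norm_mul, norm_mul, norm_cE, mul_one, mul_comm]
      have := cA_bd hcb hσ hz
      have := hgb z
      gcongr
  have hcc : 1 ≤ cc k μ := by
    unfold cc
    have := abs_nonneg μ.im
    have := abs_nonneg (k : ℝ)
    linarith
  have hee : (0 : ℝ) ≤ 1 - 2 * ε := by linarith
  set X := cc k μ ^ (1 - 2 * ε) * cx c ^ (1 / 2 + 2 * ε) with hX
  have hX0 : 0 < X := by positivity
  have hnim : |μ.im| ≤ ‖ν‖ ∧ |(k : ℝ)| ≤ ‖ν‖ := by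
    have e1 : ν.re = μ.im := by simp [hν]
    have e2 : ν.im = -(k : ℝ) := by simp [hν]
    constructor
    · rw [← e1]
      exact Complex.abs_re_le_norm ν
    · rw [← abs_neg, ← e2]
      exact Complex.abs_im_le_norm ν
  have hvol : volume.real (Metric.closedBall (0 : ℂ) 3) ≤ 30 := by
    have e1 : volume.real (Metric.closedBall (0 : ℂ) 3) = 3 ^ 2 * Real.pi := by
      rw [Measure.real, Complex.volume_closedBall, ENNReal.toReal_mul, ENNReal.toReal_pow,
        ENNReal.toReal_ofReal (by norm_num)]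
      simp
    rw [e1]
    have := Real.pi_lt_d2
    linarith
  rcases lt_or_ge ‖ν‖ 1 with hn | hn
  · -- the trivial bound
    have h1 : ‖∫ z, cT g c σ ν z‖ ≤ M * B * 30 := by
      have hfin : volume (Metric.closedBall (0 : ℂ) 3) ≠ ⊤ := by
        rw [Complex.volume_closedBall]
        exact ENNReal.mul_ne_top (ENNReal.pow_ne_top ENNReal.ofReal_ne_top) ENNReal.coe_ne_top
      refine (norm_int_ball (u := fun _ => M * B) hT3 (ae_of_all _ hTb)
        (integrableOn_const hfin)).trans ?_
      rw [setIntegral_const, smul_eq_mul, mul_comm]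
      gcongr
    have h2 : cc k μ ≤ 3 := by
      unfold cc
      linarith [hnim.1, hnim.2]
    have h4 : X ≤ 3 := by
      have e1 : cc k μ ^ (1 - 2 * ε) ≤ 3 := by
        calc cc k μ ^ (1 - 2 * ε) ≤ cc k μ ^ (1 : ℝ) :=
              Real.rpow_le_rpow_of_exponent_le hcc (by linarith)
          _ = cc k μ := Real.rpow_one _
          _ ≤ 3 := h2
      have e2 : cx c ^ (1 / 2 + 2 * ε) ≤ 1 := Real.rpow_le_one hcx0.le hcx1 (by positivity)
      calc X ≤ 3 * 1 := by
            rw [hX]
            gcongr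
        _ = 3 := by norm_num
    have h5 : 1 ≤ 3 * X⁻¹ := by
      rw [← div_eq_mul_inv, le_div_iff₀ hX0]
      linarith
    calc ‖∫ z, cT g c σ ν z‖ ≤ M * B * 30 * 1 := by linarith
      _ ≤ M * B * 30 * (3 * X⁻¹) := by gcongr
      _ = (3 * (M * 30)) * B * X⁻¹ := by ring
      _ ≤ _ := by
        gcongr
        have : 0 ≤ 3 * (M * CV + 5 * (2486 * M) * CV) := by positivity
        linarith
  · have hn0 : 0 < ‖ν‖ := by linarith
    set n := ‖ν‖ with hndef
    have hcxD : cx c = ‖cbe c ^ 2 - cal c * cga c‖ := cx_cplx c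
    have hD0 : cbe c ^ 2 - cal c * cga c ≠ 0 := by
      intro h
      apply hcx
      rw [hcxD, h, norm_zero]
    set s := √‖cbe c ^ 2 - cal c * cga c‖ with hs
    have hs0 : 0 < s := Real.sqrt_pos.2 (norm_pos_iff.2 hD0)
    have hs1 : s ≤ 1 := by
      rw [hs, ← hcxD]
      exact Real.sqrt_le_one.2 hcx1
    set lam := √(s / n) with hlam
    have hl : 0 < lam := Real.sqrt_pos.2 (by positivity)
    obtain ⟨ρ₁, ρ₂, hρ⟩ := cquad_lower (cal c) (cbe c) (cga c) hD0
    obtain ⟨hVi, hVb⟩ := hCV ρ₁ ρ₂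
    have hae : ∀ᵐ z : ℂ, z ≠ ρ₁ ∧ z ≠ ρ₂ := by
      have e : ∀ ρ : ℂ, ∀ᵐ z : ℂ, z ≠ ρ := fun ρ => by
        rw [ae_iff]
        simp
      exact (e ρ₁).and (e ρ₂)
    have hpt : ∀ᵐ z : ℂ, lam ^ 2 / (‖cP c z‖ ^ 2 + lam ^ 2) ≤ (lam / s) ^ κ * Vk κ ρ₁ ρ₂ z ∧
        (‖cP c z‖ + ‖cP' c z‖) / (‖cP c z‖ ^ 2 + lam ^ 2) ≤
        (1 / s + 4 * (lam ^ (-(2 * b)) * s ^ (1 - κ))) * Vk κ ρ₁ ρ₂ z := by
      filter_upwards [hae] with z hz
      exact pt_bounds c hs0 hl hb1 hb0.le hκ hs (hρ z) hz.1 hz.2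
    obtain ⟨f1, f2⟩ := fin_scal (n := n) (lam := lam) hn hs0 hs1 hb1 hb0 hκ hlam
    set Y := n ^ (-(1 - b)) * s⁻¹ with hY
    have hY0 : 0 < Y := by positivity
    -- the splitting
    have hPc : Continuous (fun z => ‖cP c z‖ ^ 2) := (sm_cP.continuous.norm).pow 2
    set h : ℂ → ℝ := fun z => ‖cP c z‖ ^ 2 / (‖cP c z‖ ^ 2 + lam ^ 2) with hh
    set h' : ℂ → ℝ := fun z => lam ^ 2 / (‖cP c z‖ ^ 2 + lam ^ 2) with hh'
    have hhc : Continuous h := by
      refine hPc.div (hPc.add continuous_const) fun z => ?_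
      positivity
    have hhc' : Continuous h' := by
      refine continuous_const.div (hPc.add continuous_const) fun z => ?_
      positivity
    have hsum : ∀ z, cT g c σ ν z =
        cT g c σ ν z * ((h z : ℝ) : ℂ) + cT g c σ ν z * ((h' z : ℝ) : ℂ) := by
      intro z
      rw [← mul_add, ← Complex.ofReal_add]
      have h1 : h z + h' z = 1 := by
        simp only [hh, hh']
        rw [← add_div, div_self (by positivity)]
      rw [h1]
      simp
    have hi1 : Integrable (fun z => cT g c σ ν z * ((h z : ℝ) : ℂ)) := by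
      refine Continuous.integrable_of_hasCompactSupport
        (hTs.continuous.mul (Complex.continuous_ofReal.comp hhc)) (csupp fun z hz => ?_)
      rw [hT3 z hz, zero_mul]
    have hi2 : Integrable (fun z => cT g c σ ν z * ((h' z : ℝ) : ℂ)) := by
      refine Continuous.integrable_of_hasCompactSupport
        (hTs.continuous.mul (Complex.continuous_ofReal.comp hhc')) (csupp fun z hz => ?_)
      rw [hT3 z hz, zero_mul]
    have h1 : ∫ z, cT g c σ ν z = (∫ z, cT g c σ ν z * ((h z : ℝ) : ℂ)) +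
        ∫ z, cT g c σ ν z * ((h' z : ℝ) : ℂ) := by
      rw [← integral_add hi1 hi2]
      exact integral_congr_ae (ae_of_all _ hsum)
    -- the first part
    have h2 : ‖∫ z, cT g c σ ν z * ((h z : ℝ) : ℂ)‖ ≤ 2486 * M * B * CV * (5 * Y) := by
      have e1 := core_ident (c := c) hcb σ ν hl hG h0 h3
      have e2 : ‖∫ z, cR g c σ ν lam z‖ ≤
          2486 * M * B * ((1 / s + 4 * (lam ^ (-(2 * b)) * s ^ (1 - κ))) * CV) := by
        have e3 : ‖∫ z, cR g c σ ν lam z‖ ≤ ∫ z in Metric.closedBall (0 : ℂ) 3,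
            2486 * M * B * ((1 / s + 4 * (lam ^ (-(2 * b)) * s ^ (1 - κ))) * Vk κ ρ₁ ρ₂ z) := by
          refine norm_int_ball (fun z hz => ?_) ?_ ?_
          · have e4 : g =ᶠ[𝓝 z] fun _ => 0 := by
              have e5 : z ∈ {z : ℂ | 3 < ‖z‖} := hz
              filter_upwards [(isOpen_lt continuous_const continuous_norm).mem_nhds e5] with w hw
              exact h3 w hw
            unfold cR
            rw [e4.fderiv_eq, h3 z hz]
            simp
          · filter_upwards [hpt] with z hz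
            have hV0 : 0 ≤ Vk κ ρ₁ ρ₂ z := Vk_nonneg κ ρ₁ ρ₂ z
            rcases lt_or_ge ‖z‖ (1 / 2) with hz1 | hz1
            · have e4 : g =ᶠ[𝓝 z] fun _ => 0 := by
                have e5 : z ∈ {z : ℂ | ‖z‖ < 1 / 2} := hz1
                filter_upwards [(isOpen_lt continuous_norm continuous_const).mem_nhds e5] with w hw
                exact h0 w hw
              unfold cR
              rw [e4.fderiv_eq, h0 z hz1]
              simp only [fderiv_fun_const, Pi.zero_apply, ContinuousLinearMap.zero_apply, mul_zero,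
                sub_zero, zero_mul, add_zero, norm_zero]
              positivity
            · rcases lt_or_ge 3 ‖z‖ with hz2 | hz2
              · have e4 : g =ᶠ[𝓝 z] fun _ => 0 := by
                  have e5 : z ∈ {z : ℂ | 3 < ‖z‖} := hz2
                  filter_upwards [(isOpen_lt continuous_const continuous_norm).mem_nhds e5]
                    with w hw
                  exact h3 w hw
                unfold cR
                rw [e4.fderiv_eq, h3 z hz2]
                simp only [fderiv_fun_const, Pi.zero_apply, ContinuousLinearMap.zero_apply,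
                  mul_zero, sub_zero, zero_mul, add_zero, norm_zero]
                positivity
              · refine (cR_bd hcb hσ ν hl hB hz1 hz2 (hgb z) (hG' z)).trans ?_
                gcongr
                exact hz.2
          · exact (hVi.const_mul _).const_mul _
        refine e3.trans ?_
        rw [MeasureTheory.integral_const_mul, MeasureTheory.integral_const_mul]
        gcongr
      have e3 : n * ‖∫ z, cT g c σ ν z * ((h z : ℝ) : ℂ)‖ = ‖∫ z, cR g c σ ν lam z‖ := by
        rw [← e1, norm_mul, norm_mul, Complex.norm_I, one_mul]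
      have e4 : ‖∫ z, cT g c σ ν z * ((h z : ℝ) : ℂ)‖ = 1 / n * ‖∫ z, cR g c σ ν lam z‖ := by
        rw [← e3]
        field_simp
      rw [e4]
      calc 1 / n * ‖∫ z, cR g c σ ν lam z‖
          ≤ 1 / n * (2486 * M * B * ((1 / s + 4 * (lam ^ (-(2 * b)) * s ^ (1 - κ))) * CV)) := by
            gcongr
        _ = 2486 * M * B * CV * (1 / n * (1 / s + 4 * (lam ^ (-(2 * b)) * s ^ (1 - κ)))) := by
            ring
        _ ≤ _ := by gcongr
    -- the second part
    have h4 : ‖∫ z, cT g c σ ν z * ((h' z : ℝ) : ℂ)‖ ≤ M * B * CV * Y := by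
      have e3 : ‖∫ z, cT g c σ ν z * ((h' z : ℝ) : ℂ)‖ ≤ ∫ z in Metric.closedBall (0 : ℂ) 3,
          M * B * ((lam / s) ^ κ * Vk κ ρ₁ ρ₂ z) := by
        refine norm_int_ball (fun z hz => by rw [hT3 z hz, zero_mul]) ?_ ?_
        · filter_upwards [hpt] with z hz
          have e5 : 0 ≤ h' z := by
            simp only [hh']
            positivity
          rw [norm_mul, Complex.norm_real, Real.norm_of_nonneg e5]
          have e6 := hTb z
          have e7 := hz.1
          gcongr
        · exact (hVi.const_mul _).const_mul _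
      refine e3.trans ?_
      rw [MeasureTheory.integral_const_mul, MeasureTheory.integral_const_mul]
      have hV0 : 0 ≤ ∫ z in Metric.closedBall (0 : ℂ) 3, Vk κ ρ₁ ρ₂ z :=
        integral_nonneg fun z => Vk_nonneg κ ρ₁ ρ₂ z
      calc M * B * ((lam / s) ^ κ * ∫ z in Metric.closedBall (0 : ℂ) 3, Vk κ ρ₁ ρ₂ z)
          ≤ M * B * (Y * CV) := by gcongr
        _ = _ := by ring
    have h5 : ‖∫ z, cT g c σ ν z‖ ≤ (M * CV + 5 * (2486 * M) * CV) * B * Y := by
      rw [h1]
      refine (norm_add_le _ _).trans ?_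
      calc _ ≤ 2486 * M * B * CV * (5 * Y) + M * B * CV * Y := by linarith
        _ = _ := by ring
    -- comparison
    have h6 : X ≤ 3 * Y⁻¹ := by
      have e1 : cc k μ ≤ 3 * n := by
        unfold cc
        linarith [hnim.1, hnim.2]
      have e2 : cc k μ ^ (1 - 2 * ε) ≤ 3 * n ^ (1 - b) := by
        calc cc k μ ^ (1 - 2 * ε) ≤ (3 * n) ^ (1 - 2 * ε) :=
              Real.rpow_le_rpow (by linarith) e1 hee
          _ = 3 ^ (1 - 2 * ε) * n ^ (1 - b) := by
              rw [Real.mul_rpow (by norm_num) hn0.le, hbdef]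
          _ ≤ 3 * n ^ (1 - b) := by
              gcongr
              calc (3 : ℝ) ^ (1 - 2 * ε) ≤ 3 ^ (1 : ℝ) :=
                    Real.rpow_le_rpow_of_exponent_le (by norm_num) (by linarith)
                _ = 3 := Real.rpow_one _
      have e3 : cx c ^ (1 / 2 + 2 * ε) ≤ s := by
        rw [hs, ← hcxD, Real.sqrt_eq_rpow]
        exact Real.rpow_le_rpow_of_exponent_ge hcx0 hcx1 (by linarith)
      have e4 : Y⁻¹ = n ^ (1 - b) * s := by
        rw [hY, mul_inv, inv_inv, Real.rpow_neg hn0.le, inv_inv]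
      rw [e4, hX, ← mul_assoc]
      gcongr
    have h7 : Y ≤ 3 * X⁻¹ := by
      rw [← div_eq_mul_inv, le_div_iff₀ hX0]
      calc Y * X ≤ Y * (3 * Y⁻¹) := by gcongr
        _ = 3 := by
          field_simp
    calc ‖∫ z, cT g c σ ν z‖ ≤ (M * CV + 5 * (2486 * M) * CV) * B * Y := h5
      _ ≤ (M * CV + 5 * (2486 * M) * CV) * B * (3 * X⁻¹) := by gcongr
      _ = (3 * (M * CV + 5 * (2486 * M) * CV)) * B * X⁻¹ := by ring
      _ ≤ _ := by
        gcongr
        have : 0 ≤ 3 * (M * 30) := by positivity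
        linarith

end Pool.Agent.H52.BH
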