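import Pool.Agent.H52.BH.IRB

/-!
# Row A_IR: the oscillatory integral at a real place, part 3
-/

set_option autoImplicit false

open MeasureTheory Set Filter Complex
open scoped Topology

namespace Pool.Agent.H52.BH

open Pool.Agent.H29.BH
open Pool.Agent.H29.DW (dg Rl)

section Core

variable {c : Fin 4 → ℝ}

theorem cx_real {b : Fin 4 → ℂ} (hbc : ∀ i, b i = (c i : ℂ)) :
    cx b = |be4 c ^ 2 - al4 c * ga4 c| := by
  rw [disc4]
  unfold cx
  rw [hbc 0, hbc 1, hbc 2, hbc 3, ← Complex.ofReal_sub, ← Complex.ofReal_sub,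
    ← Complex.ofReal_sub, ← Complex.ofReal_sub, Complex.norm_real, Complex.norm_real,
    Complex.norm_real, Complex.norm_real, abs_mul, abs_mul, abs_mul]
  rfl

theorem cx_le_one {b : Fin 4 → ℂ} (hb : ∀ i, ‖b i‖ ≤ 1 / 8) : cx b ≤ 1 := by
  unfold cx
  have h : ∀ i j, ‖b i - b j‖ ≤ 1 := fun i j => by
    have := norm_sub_le (b i) (b j)
    have := hb i
    have := hb j
    linarith
  calc ‖b 0 - b 2‖ * ‖b 0 - b 3‖ * ‖b 1 - b 2‖ * ‖b 1 - b 3‖ ≤ 1 * 1 * 1 * 1 := by
        gcongr <;> exact h _ _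
    _ = 1 := by norm_num

theorem cx_nonneg (b : Fin 4 → ℂ) : 0 ≤ cx b := by
  unfold cx
  positivity

end Core

theorem mz_true_int (f : ℂ → ℂ) : ∫ z, f z ∂mz true = ∫ x : ℝ, f x := by
  have h : MeasurableEmbedding (fun x : ℝ => (x : ℂ)) :=
    Complex.isometry_ofReal.isClosedEmbedding.measurableEmbedding
  unfold mz
  simp only [if_true]
  rw [h.integral_map]

/-- (AR) the oscillatory integral at a real place -/
theorem pf_A_IR : A_IR := by
  refine ⟨2 * (7 * Real.exp 11 + 13 * K0) + 12 * Real.exp 11, by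
    unfold K0
    positivity, ?_⟩
  intro k μ B g b hQ hB hg hb hcx
  have hK : 0 ≤ K0 := by
    unfold K0
    positivity
  set c : Fin 4 → ℝ := fun i => (b i).re with hcdef
  have hbc : ∀ i, b i = (c i : ℂ) := fun i => by
    apply Complex.ext
    · simp [hcdef]
    · simp [hb.real i rfl]
  have hc : ∀ i, |c i| ≤ 1 / 8 := fun i => (Complex.abs_re_le_norm (b i)).trans (hb.le i)
  set σ := μ.re with hσdef
  set om := μ.im with homdef
  have hσ : |σ| ≤ 8 := hQ.re
  obtain ⟨hG, hG'⟩ := hg.real rfl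
  set G : ℝ → ℂ := fun x => g x with hGdef
  have hGb : ∀ x, ‖G x‖ ≤ B := fun x => hg.bound x (by intro _; simp)
  have hGs : ∀ x, G x ≠ 0 → 1 / 2 ≤ |x| ∧ |x| ≤ 3 := fun x hx => by
    have := hg.supp x (by intro _; simp) hx
    rwa [Complex.norm_real, Real.norm_eq_abs] at this
  have hG0 : ∀ x, (|x| < 1 / 2 ∨ 3 < |x|) → G x = 0 := by
    intro x hx
    by_contra h
    obtain ⟨h1, h2⟩ := hGs x h
    rcases hx with hx | hx <;> linarith
  set D := be4 c ^ 2 - al4 c * ga4 c with hD
  have hcxD : cx b = |D| := cx_real hbc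
  have hD0 : D ≠ 0 := by
    intro h
    apply hcx
    rw [hcxD, h, abs_zero]
  have hcx1 : cx b ≤ 1 := cx_le_one hb.le
  have hcx0 : 0 < cx b := lt_of_le_of_ne (cx_nonneg b) (Ne.symm hcx)
  -- the integrand
  set T : ℝ → ℂ := fun x => G x * ((Real.exp (σ * Sx c x) : ℝ) : ℂ) * Ex c om x with hT
  have hTe : ∀ x : ℝ, g x * g4 k μ b x = T x := by
    intro x
    rcases lt_or_ge |x| (1 / 2) with hx | hx
    · have h1 : g x = 0 := hG0 x (Or.inl hx)
      simp only [hT]
      rw [h1, hG0 x (Or.inl hx)]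
      simp
    · have hx' : 1 / 4 < |x| := by linarith
      rw [g4_real k μ b c hbc hc hx']
      simp only [hT, Ex, Sx, px, hGdef]
      ring
  rw [mz_true_int]
  have hint : ∫ x : ℝ, g x * g4 k μ b x = ∫ x, T x := integral_congr_ae (ae_of_all _ hTe)
  rw [hint]
  have hTb : ∀ x, ‖T x‖ ≤ Real.exp 11 * B := by
    intro x
    rcases lt_or_ge |x| (1 / 2) with hx | hx
    · simp only [hT]
      rw [hG0 x (Or.inl hx)]
      simp only [zero_mul, norm_zero]
      positivity
    · simp only [hT]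
      rw [norm_mul, norm_mul, norm_Ex, mul_one, Complex.norm_real, Real.norm_eq_abs,
        abs_of_pos (Real.exp_pos _)]
      calc ‖G x‖ * Real.exp (σ * Sx c x) ≤ B * Real.exp 11 := by
            gcongr
            · exact hGb x
            · have := exp_bd hc hσ hx
              rwa [Real.exp_le_exp] at this
        _ = Real.exp 11 * B := by ring
  have hT3 : ∀ x, 3 < |x| → T x = 0 := fun x hx => by
    simp only [hT]
    rw [hG0 x (Or.inr hx)]
    simp
  have hTc : Continuous T := by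
    refine glue_cont ?_ fun x hx => ?_
    · refine (hG.continuous.continuousOn.mul ?_).mul ?_
      · exact fun x hx =>
          (((hd_Sx hc hx).const_mul σ).exp.ofReal_comp).continuousAt.continuousWithinAt
      · exact fun x hx => (hd_Ex hc om hx).continuousAt.continuousWithinAt
    · simp only [hT]
      rw [hG0 x (Or.inl hx)]
      simp
  have hkk : |(k : ℝ)| ≤ 1 := by
    rcases hQ.real rfl with h | h <;> rw [h] <;> simp
  have hcc : 1 ≤ cc k μ := by
    unfold cc
    have := abs_nonneg μ.im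
    have := abs_nonneg (k : ℝ)
    linarith
  have hA0 : 0 < cc k μ ^ (1 / 2 : ℝ) * cx b ^ (1 / 4 : ℝ) := by positivity
  have he : 0 ≤ Real.exp 11 := (Real.exp_pos 11).le
  rcases lt_or_ge |om| 1 with hom | hom
  · -- the trivial bound
    have h1 : ‖∫ x, T x‖ ≤ 6 * (Real.exp 11 * B) := by
      refine (norm_int_le hT3 hTb continuous_const).trans ?_
      rw [intervalIntegral.integral_const, smul_eq_mul]
      norm_num
    have h2 : cc k μ ≤ 4 := by
      unfold cc
      rw [← homdef]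
      linarith
    have h3 : cc k μ ^ (1 / 2 : ℝ) ≤ 2 := by
      calc cc k μ ^ (1 / 2 : ℝ) ≤ (4 : ℝ) ^ (1 / 2 : ℝ) :=
            Real.rpow_le_rpow (by linarith) h2 (by norm_num)
        _ = 2 := by
          rw [← Real.sqrt_eq_rpow]
          have : (4 : ℝ) = 2 ^ 2 := by norm_num
          rw [this, Real.sqrt_sq (by norm_num)]
    have h4 : cx b ^ (1 / 4 : ℝ) ≤ 1 := Real.rpow_le_one hcx0.le hcx1 (by norm_num)
    have h5 : cc k μ ^ (1 / 2 : ℝ) * cx b ^ (1 / 4 : ℝ) ≤ 2 := by
      calc _ ≤ 2 * 1 := mul_le_mul h3 h4 (by positivity) (by norm_num)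
        _ = 2 := by norm_num
    have h6 : 1 / 2 ≤ (cc k μ ^ (1 / 2 : ℝ) * cx b ^ (1 / 4 : ℝ))⁻¹ := by
      have h7 := inv_anti₀ hA0 h5
      linarith
    refine h1.trans ?_
    calc 6 * (Real.exp 11 * B) = 12 * Real.exp 11 * B * (1 / 2) := by ring
      _ ≤ (2 * (7 * Real.exp 11 + 13 * K0) + 12 * Real.exp 11) * B *
          (cc k μ ^ (1 / 2 : ℝ) * cx b ^ (1 / 4 : ℝ))⁻¹ := by
        gcongr
        linarith
  · have hom0 : om ≠ 0 := by
      intro h
      rw [h, abs_zero] at hom
      linarith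
    have hompos : 0 < |om| := abs_pos.2 hom0
    set δ := √|D| with hδ
    have hδ0 : 0 < δ := Real.sqrt_pos.2 (abs_pos.2 hD0)
    set lam := √(δ / |om|) with hlam
    have hl : 0 < lam := Real.sqrt_pos.2 (by positivity)
    have hl2 : lam ^ 2 = δ / |om| := Real.sq_sqrt (by positivity)
    have hPc := cont_P4 (c := c)
    set h : ℝ → ℝ := fun x => P4 c x ^ 2 / (P4 c x ^ 2 + lam ^ 2) with hh
    set h' : ℝ → ℝ := fun x => lam ^ 2 / (P4 c x ^ 2 + lam ^ 2) with hh'
    have hhc : Continuous h := by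
      refine Continuous.div (by fun_prop) (by fun_prop) fun x => ?_
      positivity
    have hhc' : Continuous h' := by
      refine Continuous.div (by fun_prop) (by fun_prop) fun x => ?_
      positivity
    have hsum : ∀ x, T x = T x * ((h x : ℝ) : ℂ) + T x * ((h' x : ℝ) : ℂ) := by
      intro x
      rw [← mul_add, ← Complex.ofReal_add]
      have h1 : h x + h' x = 1 := by
        simp only [hh, hh']
        rw [← add_div, div_self (by positivity)]
      rw [h1]
      simp
    have hi1 : Integrable (fun x => T x * ((h x : ℝ) : ℂ)) := by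
      refine Continuous.integrable_of_hasCompactSupport
        (hTc.mul (Complex.continuous_ofReal.comp hhc)) (supp_compact fun x hx => ?_)
      rw [hT3 x hx, zero_mul]
    have hi2 : Integrable (fun x => T x * ((h' x : ℝ) : ℂ)) := by
      refine Continuous.integrable_of_hasCompactSupport
        (hTc.mul (Complex.continuous_ofReal.comp hhc')) (supp_compact fun x hx => ?_)
      rw [hT3 x hx, zero_mul]
    have h1 : ∫ x, T x = (∫ x, T x * ((h x : ℝ) : ℂ)) + ∫ x, T x * ((h' x : ℝ) : ℂ) := by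
      rw [← integral_add hi1 hi2]
      exact integral_congr_ae (ae_of_all _ hsum)
    have h2 : ‖∫ x, T x * ((h x : ℝ) : ℂ)‖ ≤ 13 * (K0 * B) / (|om| * lam) :=
      core_real hc hσ hom0 hl hB hG hGb hG' hGs
    have h3 : ‖∫ x, T x * ((h' x : ℝ) : ℂ)‖ ≤ Real.exp 11 * B * (2 * (Real.pi * lam / δ)) := by
      have h4 : ‖∫ x, T x * ((h' x : ℝ) : ℂ)‖ ≤
          ∫ x in (-3 : ℝ)..3, (Real.exp 11 * B) * h' x := by
        refine norm_int_le (fun x hx => by rw [hT3 x hx, zero_mul]) (fun x => ?_)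
          (continuous_const.mul hhc')
        rw [norm_mul, Complex.norm_real, Real.norm_eq_abs, abs_of_nonneg (by
          simp only [hh']
          positivity)]
        have : 0 ≤ h' x := by
          simp only [hh']
          positivity
        exact mul_le_mul_of_nonneg_right (hTb x) this
      refine h4.trans ?_
      rw [intervalIntegral.integral_const_mul]
      have h5 := quad_near (al4 c) (be4 c) (ga4 c) lam hD0 hl (-3) 3 (by norm_num)
      exact mul_le_mul_of_nonneg_left h5 (by positivity)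
    -- the final computation
    set X := √|om| * √δ with hX
    have hX0 : 0 < X := by
      have : 0 < √|om| := Real.sqrt_pos.2 hompos
      have : 0 < √δ := Real.sqrt_pos.2 hδ0
      positivity
    have hlX : lam = √δ / √|om| := by
      rw [hlam, Real.sqrt_div hδ0.le]
    have hso : √|om| * √|om| = |om| := Real.mul_self_sqrt (abs_nonneg _)
    have hsd : √δ * √δ = δ := Real.mul_self_sqrt hδ0.le
    have hsom0 : √|om| ≠ 0 := (Real.sqrt_pos.2 hompos).ne'
    have hsd0 : √δ ≠ 0 := (Real.sqrt_pos.2 hδ0).ne'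
    have e1 : |om| * lam = X := by
      rw [hlX, hX]
      nth_rewrite 1 [← hso]
      field_simp
    have e2 : lam / δ = X⁻¹ := by
      rw [hlX, hX]
      nth_rewrite 2 [← hsd]
      field_simp
    have h4 : ‖∫ x, T x‖ ≤ (7 * Real.exp 11 + 13 * K0) * B * X⁻¹ := by
      rw [h1]
      refine (norm_add_le _ _).trans ?_
      rw [e1] at h2
      have h5 : Real.exp 11 * B * (2 * (Real.pi * lam / δ)) =
          2 * Real.pi * (Real.exp 11 * B) * X⁻¹ := by
        rw [← e2]
        ring
      rw [h5] at h3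
      have hpi := Real.pi_lt_d2
      have h6 : 2 * Real.pi * (Real.exp 11 * B) * X⁻¹ ≤ 7 * (Real.exp 11 * B) * X⁻¹ := by
        gcongr
        linarith
      calc _ ≤ 13 * (K0 * B) / X + 7 * (Real.exp 11 * B) * X⁻¹ := by linarith
        _ = (7 * Real.exp 11 + 13 * K0) * B * X⁻¹ := by
          rw [div_eq_mul_inv]
          ring
    have h5 : cc k μ ≤ 4 * |om| := by
      unfold cc
      rw [← homdef]
      linarith
    have h6 : cc k μ ^ (1 / 2 : ℝ) * cx b ^ (1 / 4 : ℝ) ≤ 2 * X := by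
      have h7 : cc k μ ^ (1 / 2 : ℝ) ≤ 2 * √|om| := by
        rw [← Real.sqrt_eq_rpow]
        calc √(cc k μ) ≤ √(4 * |om|) := Real.sqrt_le_sqrt h5
          _ = 2 * √|om| := by
            rw [Real.sqrt_mul (by norm_num)]
            have : (4 : ℝ) = 2 ^ 2 := by norm_num
            rw [this, Real.sqrt_sq (by norm_num)]
      have h8 : cx b ^ (1 / 4 : ℝ) = √δ := by
        rw [hδ, hcxD, Real.sqrt_eq_rpow, Real.sqrt_eq_rpow, ← Real.rpow_mul (abs_nonneg _)]
        norm_num
      rw [h8, hX, ← mul_assoc]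
      exact mul_le_mul_of_nonneg_right h7 (Real.sqrt_nonneg _)
    have h7 : X⁻¹ ≤ 2 * (cc k μ ^ (1 / 2 : ℝ) * cx b ^ (1 / 4 : ℝ))⁻¹ := by
      have h8 : (2 * X)⁻¹ ≤ (cc k μ ^ (1 / 2 : ℝ) * cx b ^ (1 / 4 : ℝ))⁻¹ := inv_anti₀ hA0 h6
      calc X⁻¹ = 2 * (2 * X)⁻¹ := by
            rw [mul_inv]
            ring
        _ ≤ _ := by gcongr
    refine h4.trans ?_
    calc (7 * Real.exp 11 + 13 * K0) * B * X⁻¹
        ≤ (7 * Real.exp 11 + 13 * K0) * B *
          (2 * (cc k μ ^ (1 / 2 : ℝ) * cx b ^ (1 / 4 : ℝ))⁻¹) := by gcongr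
      _ = (2 * (7 * Real.exp 11 + 13 * K0)) * B *
          (cc k μ ^ (1 / 2 : ℝ) * cx b ^ (1 / 4 : ℝ))⁻¹ := by ring
      _ ≤ _ := by
        gcongr
        linarith

end Pool.Agent.H52.BH
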