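import Mathlib

/-!
# Complex quadratic polynomials: lower bounds, and integrals of powers of the distance
-/

set_option autoImplicit false

open MeasureTheory Set Filter Complex

namespace Pool.Agent.H52.BH

/-- a complex quadratic polynomial is bounded below by the distance to two points -/
theorem cquad_lower (α β γ : ℂ) (hD : β ^ 2 - α * γ ≠ 0) :
    ∃ ρ₁ ρ₂ : ℂ, ∀ z : ℂ,
      √‖β ^ 2 - α * γ‖ * min ‖z - ρ₁‖ ‖z - ρ₂‖ ≤ ‖α * z ^ 2 + 2 * β * z + γ‖ ∧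
      ‖α‖ * min ‖z - ρ₁‖ ‖z - ρ₂‖ ^ 2 ≤ ‖α * z ^ 2 + 2 * β * z + γ‖ := by
  by_cases hα : α = 0
  · subst hα
    have hβ : β ≠ 0 := by
      intro h
      apply hD
      rw [h]
      ring
    refine ⟨-γ / (2 * β), -γ / (2 * β), fun z => ⟨?_, ?_⟩⟩
    · have h1 : √‖β ^ 2 - 0 * γ‖ = ‖β‖ := by
        rw [zero_mul, sub_zero, norm_pow, Real.sqrt_sq (norm_nonneg β)]
      have h2 : (0 : ℂ) * z ^ 2 + 2 * β * z + γ = 2 * (β * (z - -γ / (2 * β))) := by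
        field_simp
        ring
      rw [h1, min_self, h2, norm_mul, norm_mul, Complex.norm_ofNat]
      have : 0 ≤ ‖β‖ * ‖z - -γ / (2 * β)‖ := by positivity
      linarith
    · rw [norm_zero, zero_mul]
      exact norm_nonneg _
  · have hα' : 0 < ‖α‖ := norm_pos_iff.2 hα
    obtain ⟨s, hs⟩ : ∃ s : ℂ, s ^ 2 = β ^ 2 - α * γ :=
      IsAlgClosed.exists_pow_nat_eq _ (by norm_num)
    have hsn : √‖β ^ 2 - α * γ‖ = ‖s‖ := by
      rw [← hs, norm_pow, Real.sqrt_sq (norm_nonneg s)]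
    refine ⟨(-β + s) / α, (-β - s) / α, fun z => ?_⟩
    set ρ₁ := (-β + s) / α with h1
    set ρ₂ := (-β - s) / α with h2
    have h3 : α * z ^ 2 + 2 * β * z + γ = α * ((z - ρ₁) * (z - ρ₂)) := by
      have h5 : γ = (β ^ 2 - s ^ 2) / α := by
        rw [hs]
        field_simp
        ring
      rw [h1, h2, h5]
      field_simp
      ring
    have h4 : 2 * ‖s‖ = ‖α‖ * ‖ρ₁ - ρ₂‖ := by
      rw [← norm_mul, h1, h2]
      have h5 : α * ((-β + s) / α - (-β - s) / α) = 2 * s := by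
        field_simp
        ring
      rw [h5, norm_mul, Complex.norm_ofNat]
    have h5 : ‖ρ₁ - ρ₂‖ ≤ ‖z - ρ₁‖ + ‖z - ρ₂‖ := by
      have h6 : ρ₁ - ρ₂ = -(z - ρ₁) + (z - ρ₂) := by ring
      rw [h6]
      refine (norm_add_le _ _).trans ?_
      rw [norm_neg]
    have h6 : ‖z - ρ₁‖ + ‖z - ρ₂‖ ≤ 2 * max ‖z - ρ₁‖ ‖z - ρ₂‖ := by
      have := le_max_left ‖z - ρ₁‖ ‖z - ρ₂‖
      have := le_max_right ‖z - ρ₁‖ ‖z - ρ₂‖
      linarith
    have h7 : ‖s‖ ≤ ‖α‖ * max ‖z - ρ₁‖ ‖z - ρ₂‖ := by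
      have h8 : ‖α‖ * ‖ρ₁ - ρ₂‖ ≤ ‖α‖ * (2 * max ‖z - ρ₁‖ ‖z - ρ₂‖) :=
        mul_le_mul_of_nonneg_left (h5.trans h6) hα'.le
      linarith
    have h8 : ‖α * z ^ 2 + 2 * β * z + γ‖ =
        ‖α‖ * (min ‖z - ρ₁‖ ‖z - ρ₂‖ * max ‖z - ρ₁‖ ‖z - ρ₂‖) := by
      rw [h3, norm_mul, norm_mul, min_mul_max]
    have h9 : 0 ≤ min ‖z - ρ₁‖ ‖z - ρ₂‖ := le_min (norm_nonneg _) (norm_nonneg _)
    rw [hsn, h8]
    constructor
    · calc ‖s‖ * min ‖z - ρ₁‖ ‖z - ρ₂‖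
          ≤ (‖α‖ * max ‖z - ρ₁‖ ‖z - ρ₂‖) * min ‖z - ρ₁‖ ‖z - ρ₂‖ :=
            mul_le_mul_of_nonneg_right h7 h9
        _ = _ := by ring
    · rw [sq]
      have h10 : min ‖z - ρ₁‖ ‖z - ρ₂‖ ≤ max ‖z - ρ₁‖ ‖z - ρ₂‖ := min_le_max
      gcongr

/-- the power of the distance is integrable near `0` -/
theorem integrable_pow_near (κ : ℝ) (hκ : κ < 2) :
    Integrable (fun z : ℂ => (Metric.ball (0 : ℂ) 1).indicator (fun z => ‖z‖ ^ (-κ)) z) := by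
  have h1 : (fun z : ℂ => (Metric.ball (0 : ℂ) 1).indicator (fun z => ‖z‖ ^ (-κ)) z) =
      fun z : ℂ => (Iio (1 : ℝ)).indicator (fun y : ℝ => y ^ (-κ)) ‖z‖ := by
    funext z
    by_cases hz : ‖z‖ < 1
    · rw [indicator_of_mem (by simpa using hz), indicator_of_mem (by simpa using hz)]
    · rw [indicator_of_notMem (by simpa using hz), indicator_of_notMem (by simpa using hz)]
  rw [h1]
  have h2 := (integrable_fun_norm_addHaar (E := ℂ) (volume : Measure ℂ)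
    (f := (Iio (1 : ℝ)).indicator (fun y : ℝ => y ^ (-κ)))).2
  apply h2
  rw [Complex.finrank_real_complex]
  have h3 : IntegrableOn (fun y : ℝ => y ^ (1 - κ)) (Ioo 0 1) := by
    rw [intervalIntegral.integrableOn_Ioo_rpow_iff (by norm_num)]
    linarith
  have h4 : IntegrableOn (fun y : ℝ => (Iio (1 : ℝ)).indicator (fun y : ℝ => y ^ (1 - κ)) y)
      (Ioi 0) := by
    rw [IntegrableOn, integrable_indicator_iff measurableSet_Iio, IntegrableOn,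
      Measure.restrict_restrict measurableSet_Iio]
    have : Iio (1 : ℝ) ∩ Ioi 0 = Ioo 0 1 := by
      ext y
      simp [and_comm]
    rw [this]
    exact h3
  refine h4.congr_fun (fun y hy => ?_) measurableSet_Ioi
  have hy0 : (0 : ℝ) < y := hy
  change (Iio (1 : ℝ)).indicator (fun y : ℝ => y ^ (1 - κ)) y =
    y ^ (2 - 1) • (Iio (1 : ℝ)).indicator (fun y : ℝ => y ^ (-κ)) y
  by_cases hy1 : y < 1
  · have hm : y ∈ Iio (1 : ℝ) := hy1
    rw [indicator_of_mem hm, indicator_of_mem hm]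
    rw [smul_eq_mul, show (1 : ℝ) - κ = 1 + -κ by ring, Real.rpow_add hy0, Real.rpow_one]
    norm_num
  · have hm : y ∉ Iio (1 : ℝ) := hy1
    rw [indicator_of_notMem hm, indicator_of_notMem hm, smul_zero]

/-- the singular weight -/
noncomputable def Vk (κ : ℝ) (ρ₁ ρ₂ z : ℂ) : ℝ :=
  (Metric.ball (0 : ℂ) 1).indicator (fun z => ‖z‖ ^ (-κ)) (z - ρ₁) +
    (Metric.ball (0 : ℂ) 1).indicator (fun z => ‖z‖ ^ (-κ)) (z - ρ₂) + 1

/-- the integral of the weight over the ball of radius `3` -/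
theorem int_Vk (κ : ℝ) (hκ : κ < 2) : ∃ C : ℝ, 0 ≤ C ∧ ∀ ρ₁ ρ₂ : ℂ,
    IntegrableOn (Vk κ ρ₁ ρ₂) (Metric.closedBall 0 3) ∧
    ∫ z in Metric.closedBall (0 : ℂ) 3, Vk κ ρ₁ ρ₂ z ≤ C := by
  set g : ℂ → ℝ := fun z => (Metric.ball (0 : ℂ) 1).indicator (fun z => ‖z‖ ^ (-κ)) z with hg
  have hgi : Integrable g := integrable_pow_near κ hκ
  have hg0 : ∀ z, 0 ≤ g z := fun z => indicator_nonneg (fun z _ => by positivity) z
  have hfin : volume (Metric.closedBall (0 : ℂ) 3) ≠ ⊤ := by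
    rw [Complex.volume_closedBall]
    exact ENNReal.mul_ne_top (ENNReal.pow_ne_top ENNReal.ofReal_ne_top) ENNReal.coe_ne_top
  refine ⟨2 * (∫ z, g z) + (volume (Metric.closedBall (0 : ℂ) 3)).toReal, ?_, fun ρ₁ ρ₂ => ?_⟩
  · have h0 : 0 ≤ ∫ z, g z := integral_nonneg hg0
    have h1 : 0 ≤ (volume (Metric.closedBall (0 : ℂ) 3)).toReal := ENNReal.toReal_nonneg
    linarith
  · have h1 : ∀ ρ : ℂ, Integrable (fun z => g (z - ρ)) := fun ρ => hgi.comp_sub_right ρ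
    have h2 : ∀ ρ : ℂ, ∫ z in Metric.closedBall (0 : ℂ) 3, g (z - ρ) ≤ ∫ z, g z := by
      intro ρ
      calc ∫ z in Metric.closedBall (0 : ℂ) 3, g (z - ρ) ≤ ∫ z, g (z - ρ) :=
            setIntegral_le_integral (h1 ρ) (ae_of_all _ fun z => hg0 _)
        _ = ∫ z, g z := integral_sub_right_eq_self g ρ
    have h3 : IntegrableOn (fun _ : ℂ => (1 : ℝ)) (Metric.closedBall (0 : ℂ) 3) :=
      integrableOn_const hfin
    have h4 : Vk κ ρ₁ ρ₂ = fun z => g (z - ρ₁) + g (z - ρ₂) + 1 := rfl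
    refine ⟨?_, ?_⟩
    · rw [h4]
      exact (((h1 ρ₁).integrableOn).add ((h1 ρ₂).integrableOn)).add h3
    · rw [h4]
      have h5 : ∫ z in Metric.closedBall (0 : ℂ) 3, (g (z - ρ₁) + g (z - ρ₂) + 1) =
          (∫ z in Metric.closedBall (0 : ℂ) 3, g (z - ρ₁)) +
          (∫ z in Metric.closedBall (0 : ℂ) 3, g (z - ρ₂)) +
          ∫ z in Metric.closedBall (0 : ℂ) 3, (1 : ℝ) := by
        have hs : IntegrableOn (fun z => g (z - ρ₁) + g (z - ρ₂)) (Metric.closedBall (0 : ℂ) 3) :=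
          ((h1 ρ₁).integrableOn).add ((h1 ρ₂).integrableOn)
        rw [integral_add hs h3, integral_add ((h1 ρ₁).integrableOn) ((h1 ρ₂).integrableOn)]
      rw [h5, setIntegral_const, smul_eq_mul, mul_one]
      have h6 := h2 ρ₁
      have h7 := h2 ρ₂
      have h8 : volume.real (Metric.closedBall (0 : ℂ) 3) =
          (volume (Metric.closedBall (0 : ℂ) 3)).toReal := rfl
      rw [h8]
      linarith

theorem Vk_ge {κ : ℝ} (hκ : 0 ≤ κ) {ρ₁ ρ₂ z : ℂ} (h1 : z ≠ ρ₁) (h2 : z ≠ ρ₂) :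
    min ‖z - ρ₁‖ ‖z - ρ₂‖ ^ (-κ) ≤ Vk κ ρ₁ ρ₂ z ∧ 1 ≤ Vk κ ρ₁ ρ₂ z := by
  set g : ℂ → ℝ := fun z => (Metric.ball (0 : ℂ) 1).indicator (fun z => ‖z‖ ^ (-κ)) z with hg
  have hg0 : ∀ z, 0 ≤ g z := fun z => indicator_nonneg (fun z _ => by positivity) z
  have h4 : Vk κ ρ₁ ρ₂ z = g (z - ρ₁) + g (z - ρ₂) + 1 := rfl
  have h5 : ∀ w : ℂ, w ≠ 0 → ‖w‖ ^ (-κ) ≤ g w + 1 := by
    intro w hw
    by_cases hw1 : ‖w‖ < 1
    · have : g w = ‖w‖ ^ (-κ) := by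
        simp only [hg]
        rw [indicator_of_mem (by simpa using hw1)]
      rw [this]
      linarith
    · have h6 : ‖w‖ ^ (-κ) ≤ 1 :=
        Real.rpow_le_one_of_one_le_of_nonpos (not_lt.1 hw1) (by linarith)
      linarith [hg0 w]
  have h6 := h5 (z - ρ₁) (sub_ne_zero.2 h1)
  have h7 := h5 (z - ρ₂) (sub_ne_zero.2 h2)
  have h8 := hg0 (z - ρ₁)
  have h9 := hg0 (z - ρ₂)
  rw [h4]
  refine ⟨?_, by linarith⟩
  rcases le_total ‖z - ρ₁‖ ‖z - ρ₂‖ with h | h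
  · rw [min_eq_left h]
    linarith
  · rw [min_eq_right h]
    linarith

end Pool.Agent.H52.BH
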