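import Pool.Agent.H29.BH.Targets1
import Pool.Agent.H52.BH.CQ

/-!
# Row A_IC: the oscillatory integral at a complex place, part 1: derivatives along lines
-/

set_option autoImplicit false

open MeasureTheory Set Filter Complex
open scoped Topology

namespace Pool.Agent.H52.BH

open Pool.Agent.H29.BH
open Pool.Agent.H29.DW (dg Rl)

/-! ### The logarithms -/

/-- `log(1 + b / z)` -/
noncomputable def clg (b z : ℂ) : ℂ := Complex.log (1 + b / z)

theorem cz_ne {z : ℂ} (hz : 1 / 4 < ‖z‖) : z ≠ 0 := by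
  intro h
  rw [h, norm_zero] at hz
  linarith

theorem cadd_ne {b z : ℂ} (hb : ‖b‖ ≤ 1 / 8) (hz : 1 / 4 < ‖z‖) : z + b ≠ 0 := by
  intro h
  have h1 : z = -b := eq_neg_of_add_eq_zero_left h
  rw [h1, norm_neg] at hz
  linarith

theorem cslit {b z : ℂ} (hb : ‖b‖ ≤ 1 / 8) (hz : 1 / 4 < ‖z‖) : 1 + b / z ∈ slitPlane := by
  apply Complex.mem_slitPlane_of_norm_lt_one
  rw [norm_div, div_lt_one (by linarith)]
  linarith

theorem hasDerivAt_clg {b z : ℂ} (hb : ‖b‖ ≤ 1 / 8) (hz : 1 / 4 < ‖z‖) :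
    HasDerivAt (clg b) (1 / (z + b) - 1 / z) z := by
  have hz0 := cz_ne hz
  have hzb := cadd_ne hb hz
  have h1 : HasDerivAt (fun z => 1 + b / z) (-b / z ^ 2) z := by
    have h2 := (hasDerivAt_inv hz0).const_mul b
    have h3 := h2.const_add 1
    refine h3.congr_deriv ?_ |>.congr_of_eventuallyEq ?_
    · ring
    · exact Eventually.of_forall fun y => by simp [div_eq_mul_inv]
  have h4 := h1.clog (cslit hb hz)
  refine h4.congr_deriv ?_
  have h5 : 1 + b / z = (z + b) / z := by field_simp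
  rw [h5]
  field_simp
  ring

theorem contDiffAt_clg {b z : ℂ} (hb : ‖b‖ ≤ 1 / 8) (hz : 1 / 4 < ‖z‖) :
    ContDiffAt ℂ 1 (clg b) z := by
  have h1 : ContDiffAt ℂ 1 (fun z : ℂ => 1 + b / z) z :=
    contDiffAt_const.add (contDiffAt_const.div contDiffAt_id (cz_ne hz))
  exact (Complex.contDiffAt_log (cslit hb hz)).comp z h1

theorem norm_clg_le {b z : ℂ} (hb : ‖b‖ ≤ 1 / 8) (hz : 1 / 2 ≤ ‖z‖) : ‖clg b z‖ ≤ 3 / 8 := by
  have h1 : ‖b / z‖ ≤ 1 / 4 := by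
    rw [norm_div, div_le_iff₀ (by linarith)]
    linarith
  have h2 := Complex.norm_log_one_add_half_le_self (h1.trans (by norm_num))
  unfold clg
  linarith

/-! ### The quasi-character -/

theorem Gm_log (k : ℤ) (μ : ℂ) {w : ℂ} (hw : w ≠ 0) :
    Gm k μ w = cexp ((k : ℂ) * ((((Complex.log w).im : ℝ) : ℂ) * I) +
      μ * (((Complex.log w).re : ℝ) : ℂ)) := by
  unfold Gm
  rw [Complex.exp_add]
  congr 1
  · have h1 : w / ((‖w‖ : ℝ) : ℂ) = cexp ((((Complex.log w).im : ℝ) : ℂ) * I) := by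
      rw [Complex.log_im, div_eq_iff (by exact_mod_cast (norm_pos_iff.2 hw).ne'), mul_comm]
      exact (Complex.norm_mul_exp_arg_mul_I w).symm
    rw [h1, ← Complex.exp_int_mul]
  · rw [Complex.log_re]

section Core

variable (c : Fin 4 → ℂ)

noncomputable def cS (z : ℂ) : ℂ := clg (c 0) z + clg (c 1) z + clg (c 2) z + clg (c 3) z
noncomputable def cL (z : ℂ) : ℂ := clg (c 0) z + clg (c 1) z - clg (c 2) z - clg (c 3) z
noncomputable def cS' (z : ℂ) : ℂ := (1 / (z + c 0) - 1 / z) + (1 / (z + c 1) - 1 / z) +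
  (1 / (z + c 2) - 1 / z) + (1 / (z + c 3) - 1 / z)
noncomputable def cL' (z : ℂ) : ℂ := (1 / (z + c 0) - 1 / z) + (1 / (z + c 1) - 1 / z) -
  (1 / (z + c 2) - 1 / z) - (1 / (z + c 3) - 1 / z)
noncomputable def cPi (z : ℂ) : ℂ := (z + c 0) * (z + c 1) * (z + c 2) * (z + c 3)
noncomputable def cPi' (z : ℂ) : ℂ :=
  (z + c 1) * (z + c 2) * (z + c 3) + (z + c 0) * (z + c 2) * (z + c 3) +
  (z + c 0) * (z + c 1) * (z + c 3) + (z + c 0) * (z + c 1) * (z + c 2)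
noncomputable def cal : ℂ := c 0 + c 1 - c 2 - c 3
noncomputable def cbe : ℂ := c 0 * c 1 - c 2 * c 3
noncomputable def cga : ℂ := (c 2 + c 3) * c 0 * c 1 - (c 0 + c 1) * c 2 * c 3
noncomputable def cP (z : ℂ) : ℂ := cal c * z ^ 2 + 2 * cbe c * z + cga c
noncomputable def cP' (z : ℂ) : ℂ := 2 * cal c * z + 2 * cbe c
/-- `|P| ^ 2 + lam ^ 2` -/
noncomputable def cQ (lam : ℝ) (z : ℂ) : ℂ :=
  cP c z * (starRingEnd ℂ) (cP c z) + (lam : ℂ) ^ 2
/-- the oscillating factor -/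
noncomputable def cE (ν z : ℂ) : ℂ := cexp ((((ν * cL c z).re : ℝ) : ℂ) * I)

theorem cdisc : cbe c ^ 2 - cal c * cga c =
    (c 0 - c 2) * (c 0 - c 3) * (c 1 - c 2) * (c 1 - c 3) := by
  unfold cbe cal cga
  ring

theorem cP'_sq (z : ℂ) : cP' c z ^ 2 = 4 * (cal c * cP c z + (cbe c ^ 2 - cal c * cga c)) := by
  unfold cP' cP
  ring

theorem cQ_eq (lam : ℝ) (z : ℂ) : cQ c lam z = ((‖cP c z‖ ^ 2 + lam ^ 2 : ℝ) : ℂ) := by
  unfold cQ
  rw [Complex.mul_conj, Complex.normSq_eq_norm_sq]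
  push_cast
  ring

theorem cQ_ne {lam : ℝ} (hl : 0 < lam) (z : ℂ) : cQ c lam z ≠ 0 := by
  rw [cQ_eq]
  exact_mod_cast (by positivity : (0 : ℝ) < ‖cP c z‖ ^ 2 + lam ^ 2).ne'

theorem norm_cQ (lam : ℝ) (z : ℂ) : ‖cQ c lam z‖ = ‖cP c z‖ ^ 2 + lam ^ 2 := by
  rw [cQ_eq, Complex.norm_real, Real.norm_of_nonneg (by positivity)]

theorem norm_cE (ν z : ℂ) : ‖cE c ν z‖ = 1 := by
  unfold cE
  rw [Complex.norm_exp_ofReal_mul_I]

variable {c}

theorem g4_cplx (k : ℤ) (μ : ℂ) (hc : ∀ i, ‖c i‖ ≤ 1 / 8) {z : ℂ} (hz : 1 / 4 < ‖z‖) :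
    g4 k μ c z = ((Real.exp (μ.re * (cS c z).re) : ℝ) : ℂ) *
      cE c ((μ.im : ℂ) - (k : ℂ) * I) z := by
  have hne : ∀ i, 1 + c i / z ≠ 0 := fun i => Complex.slitPlane_ne_zero (cslit (hc i) hz)
  unfold g4 cE
  rw [Gm_log k μ (hne 0), Gm_log k μ (hne 1), Gm_log k μ (hne 2), Gm_log k μ (hne 3),
    ← Complex.exp_conj, ← Complex.exp_conj, Complex.ofReal_exp, ← Complex.exp_add,
    ← Complex.exp_add, ← Complex.exp_add, ← Complex.exp_add]
  congr 1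
  apply Complex.ext
  · simp [cS, cL, clg]
    ring
  · simp [cS, cL, clg]
    ring

theorem hd_cS (hc : ∀ i, ‖c i‖ ≤ 1 / 8) {z : ℂ} (hz : 1 / 4 < ‖z‖) :
    HasDerivAt (cS c) (cS' c z) z :=
  (((hasDerivAt_clg (hc 0) hz).add (hasDerivAt_clg (hc 1) hz)).add
    (hasDerivAt_clg (hc 2) hz)).add (hasDerivAt_clg (hc 3) hz)

theorem hd_cL (hc : ∀ i, ‖c i‖ ≤ 1 / 8) {z : ℂ} (hz : 1 / 4 < ‖z‖) :
    HasDerivAt (cL c) (cL' c z) z :=
  (((hasDerivAt_clg (hc 0) hz).add (hasDerivAt_clg (hc 1) hz)).sub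
    (hasDerivAt_clg (hc 2) hz)).sub (hasDerivAt_clg (hc 3) hz)

theorem cL'_eq (hc : ∀ i, ‖c i‖ ≤ 1 / 8) {z : ℂ} (hz : 1 / 4 < ‖z‖) :
    cPi c z * cL' c z = -cP c z := by
  have h := cz_ne hz
  have h0 := cadd_ne (hc 0) hz
  have h1 := cadd_ne (hc 1) hz
  have h2 := cadd_ne (hc 2) hz
  have h3 := cadd_ne (hc 3) hz
  unfold cPi cL' cP cal cbe cga
  field_simp
  ring

theorem hd_cPi (z : ℂ) : HasDerivAt (cPi c) (cPi' c z) z := by
  have h : ∀ i, HasDerivAt (fun z => z + c i) 1 z := fun i => (hasDerivAt_id z).add_const (c i)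
  have h1 := (((h 0).mul (h 1)).mul (h 2)).mul (h 3)
  refine h1.congr_deriv ?_
  unfold cPi'
  simp only [Pi.mul_apply]
  ring

theorem hd_cP (z : ℂ) : HasDerivAt (cP c) (cP' c z) z := by
  have h1 : HasDerivAt (fun z : ℂ => cal c * z ^ 2 + 2 * cbe c * z + cga c)
      (cal c * (2 * z) + 2 * cbe c * 1) z := by
    have h2 : HasDerivAt (fun z : ℂ => z ^ 2) (2 * z) z := by
      simpa using hasDerivAt_pow 2 z
    exact ((h2.const_mul _).add ((hasDerivAt_id z).const_mul _)).add_const _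
  refine h1.congr_deriv ?_
  unfold cP'
  ring

/-! ### Derivatives along lines -/

theorem hd_line (z v : ℂ) : HasDerivAt (fun t : ℝ => z + t • v) v 0 := by
  have h := (hasDerivAt_id (0 : ℝ)).smul_const v
  have h2 := h.const_add z
  simpa using h2

theorem hd_comp {f : ℂ → ℂ} {f' z : ℂ} (h : HasDerivAt f f' z) (v : ℂ) :
    HasDerivAt (fun t : ℝ => f (z + t • v)) (f' * v) 0 := by
  have h1 : HasDerivAt f f' ((fun t : ℝ => z + t • v) 0) := by simpa using h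
  have h2 := HasDerivAt.scomp (0 : ℝ) h1 (hd_line z v)
  simpa [Function.comp_def, mul_comm] using h2

theorem hd_re {f : ℝ → ℂ} {f' : ℂ} {t : ℝ} (h : HasDerivAt f f' t) :
    HasDerivAt (fun t => (f t).re) f'.re t :=
  Complex.reCLM.hasFDerivAt.comp_hasDerivAt t h

theorem hd_conj {f : ℝ → ℂ} {f' : ℂ} {t : ℝ} (h : HasDerivAt f f' t) :
    HasDerivAt (fun t => (starRingEnd ℂ) (f t)) ((starRingEnd ℂ) f') t :=
  Complex.conjCLE.toContinuousLinearMap.hasFDerivAt.comp_hasDerivAt t h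

end Core

end Pool.Agent.H52.BH
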