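import Pool.Agent.H52.BH.CIA

/-!
# Row A_IC: the oscillatory integral at a complex place, part 2: integration by parts
-/

set_option autoImplicit false

open MeasureTheory Set Filter Complex
open scoped Topology

namespace Pool.Agent.H52.BH

open Pool.Agent.H29.BH
open Pool.Agent.H29.DW (dg Rl)

section Core

variable {c : Fin 4 → ℂ}

/-- the amplitude -/
noncomputable def cA (c : Fin 4 → ℂ) (σ : ℝ) (z : ℂ) : ℂ :=
  ((Real.exp (σ * (cS c z).re) : ℝ) : ℂ)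

/-- the quotient -/
noncomputable def cq (c : Fin 4 → ℂ) (lam : ℝ) (z : ℂ) : ℂ :=
  (starRingEnd ℂ) (cP c z) / cQ c lam z

/-- the function of compact support -/
noncomputable def cF (g : ℂ → ℂ) (c : Fin 4 → ℂ) (σ : ℝ) (ν : ℂ) (lam : ℝ) (z : ℂ) : ℂ :=
  g z * cA c σ z * cPi c z * cq c lam z * cE c ν z

/-- its derivative in the direction `v` -/
noncomputable def cDF (g : ℂ → ℂ) (c : Fin 4 → ℂ) (σ : ℝ) (ν : ℂ) (lam : ℝ) (v z : ℂ) : ℂ :=
  (((fderiv ℝ g z v * cA c σ z + g z * (cA c σ z * ((σ * (cS' c z * v).re : ℝ) : ℂ))) * cPi c z +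
    g z * cA c σ z * (cPi' c z * v)) * cq c lam z +
    g z * cA c σ z * cPi c z *
      (((lam : ℂ) ^ 2 * (starRingEnd ℂ) (cP' c z * v) -
        (starRingEnd ℂ) (cP c z) ^ 2 * (cP' c z * v)) / cQ c lam z ^ 2)) * cE c ν z +
  g z * cA c σ z * cPi c z * cq c lam z * (cE c ν z * (((ν * (cL' c z * v)).re : ℝ) * I))

theorem hl_cE (hc : ∀ i, ‖c i‖ ≤ 1 / 8) (ν : ℂ) {z : ℂ} (hz : 1 / 4 < ‖z‖) (v : ℂ) :
    HasDerivAt (fun t : ℝ => cE c ν (z + t • v))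
      (cE c ν z * (((ν * (cL' c z * v)).re : ℝ) * I)) 0 := by
  have h1 := hd_re ((hd_comp (hd_cL hc hz) v).const_mul ν)
  have h2 := (h1.ofReal_comp.mul_const I).cexp
  refine h2.congr_deriv ?_
  unfold cE
  simp

theorem hl_cA (hc : ∀ i, ‖c i‖ ≤ 1 / 8) (σ : ℝ) {z : ℂ} (hz : 1 / 4 < ‖z‖) (v : ℂ) :
    HasDerivAt (fun t : ℝ => cA c σ (z + t • v))
      (cA c σ z * ((σ * (cS' c z * v).re : ℝ) : ℂ)) 0 := by
  have h1 := hd_re (hd_comp (hd_cS hc hz) v)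
  have h2 := ((h1.const_mul σ).exp).ofReal_comp
  refine h2.congr_deriv ?_
  unfold cA
  simp

theorem hl_cq {lam : ℝ} (hl : 0 < lam) (z v : ℂ) :
    HasDerivAt (fun t : ℝ => cq c lam (z + t • v))
      (((lam : ℂ) ^ 2 * (starRingEnd ℂ) (cP' c z * v) -
        (starRingEnd ℂ) (cP c z) ^ 2 * (cP' c z * v)) / cQ c lam z ^ 2) 0 := by
  have h1 := hd_comp (hd_cP (c := c) z) v
  have h2 := hd_conj h1
  have h3 : HasDerivAt (fun t : ℝ => cQ c lam (z + t • v)) _ 0 :=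
    (h1.mul h2).add_const ((lam : ℂ) ^ 2)
  have hz0 : z + (0 : ℝ) • v = z := by simp
  have h4 := h2.div h3 (by rw [hz0]; exact cQ_ne c hl z)
  refine h4.congr_deriv ?_
  rw [hz0]
  congr 1
  unfold cQ
  ring

theorem hl_cF {g : ℂ → ℂ} (hc : ∀ i, ‖c i‖ ≤ 1 / 8) (σ : ℝ) (ν : ℂ) {lam : ℝ} (hl : 0 < lam)
    {z : ℂ} (hz : 1 / 4 < ‖z‖) (hg : DifferentiableAt ℝ g z) (v : ℂ) :
    HasLineDerivAt ℝ (cF g c σ ν lam) (cDF g c σ ν lam v z) z v := by
  have hz0 : z + (0 : ℝ) • v = z := by simp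
  have h1 : HasDerivAt (fun t : ℝ => g (z + t • v)) (fderiv ℝ g z v) 0 :=
    hg.hasFDerivAt.hasLineDerivAt v
  have h2 := hl_cA hc σ hz v
  have h3 := hd_comp (hd_cPi (c := c) z) v
  have h4 := hl_cq (c := c) hl z v
  have h5 := hl_cE hc ν hz v
  have h6 := (((h1.mul h2).mul h3).mul h4).mul h5
  unfold HasLineDerivAt
  refine HasDerivAt.congr_deriv h6 ?_
  simp only [Pi.mul_apply]
  rw [hz0]
  unfold cDF
  ring

theorem re_comb (w : ℂ) : (((w * 1).re : ℝ) : ℂ) - I * (((w * I).re : ℝ) : ℂ) = w := by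
  apply Complex.ext <;> simp

/-- the combination of the two directions -/
theorem cDF_comb (g : ℂ → ℂ) (hc : ∀ i, ‖c i‖ ≤ 1 / 8) (σ : ℝ) (ν : ℂ) (lam : ℝ)
    {z : ℂ} (hz : 1 / 4 < ‖z‖) :
    cDF g c σ ν lam 1 z - I * cDF g c σ ν lam I z =
      (((fderiv ℝ g z 1 - I * fderiv ℝ g z I) * cPi c z + g z * (σ * cS' c z) * cPi c z +
        2 * g z * cPi' c z) * cA c σ z * cq c lam z +
      g z * cA c σ z * cPi c z *
        (-2 * (starRingEnd ℂ) (cP c z) ^ 2 * cP' c z / cQ c lam z ^ 2)) * cE c ν z -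
      I * ν * (g z * cA c σ z * cE c ν z * ((‖cP c z‖ ^ 2 / (‖cP c z‖ ^ 2 + lam ^ 2) : ℝ) : ℂ)) := by
  have hS := re_comb (cS' c z)
  have hL := re_comb (ν * cL' c z)
  have hLL := cL'_eq hc hz
  have hI : I * I = -1 := Complex.I_mul_I
  have hh : ((‖cP c z‖ ^ 2 / (‖cP c z‖ ^ 2 + lam ^ 2) : ℝ) : ℂ) = cP c z * cq c lam z := by
    unfold cq
    rw [cQ_eq, ← mul_div_assoc, Complex.mul_conj, Complex.normSq_eq_norm_sq]
    push_cast
    rfl
  rw [hh]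
  have hc1 : (starRingEnd ℂ) (cP' c z * 1) = (starRingEnd ℂ) (cP' c z) := by rw [mul_one]
  have hc2 : (starRingEnd ℂ) (cP' c z * I) = -((starRingEnd ℂ) (cP' c z) * I) := by
    rw [map_mul, Complex.conj_I]
    ring
  unfold cDF
  rw [hc1, hc2]
  have e1 : ∀ v, ((σ * (cS' c z * v).re : ℝ) : ℂ) = (σ : ℂ) * (((cS' c z * v).re : ℝ) : ℂ) :=
    fun v => by push_cast; rfl
  rw [e1, e1, ← mul_assoc ν (cL' c z) 1, ← mul_assoc ν (cL' c z) I]
  set r1 : ℂ := (((cS' c z * 1).re : ℝ) : ℂ) with hr1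
  set r2 : ℂ := (((cS' c z * I).re : ℝ) : ℂ) with hr2
  set m1 : ℂ := (((ν * cL' c z * 1).re : ℝ) : ℂ) with hm1
  set m2 : ℂ := (((ν * cL' c z * I).re : ℝ) : ℂ) with hm2
  set Q := cQ c lam z with hQ
  set G1 := fderiv ℝ g z 1 with hG1
  set G2 := fderiv ℝ g z I with hG2
  set PB := (starRingEnd ℂ) (cP c z) with hPB
  set PB' := (starRingEnd ℂ) (cP' c z) with hPB'
  simp only [div_eq_mul_inv]
  set Qi := (Q ^ 2)⁻¹ with hQi
  linear_combination (g z * cA c σ z * σ * cPi c z * cq c lam z * cE c ν z) * hS +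
    (g z * cA c σ z * cPi c z * cq c lam z * cE c ν z * I) * hL +
    (g z * cA c σ z * cq c lam z * cE c ν z * I * ν) * hLL +
    (-(g z * cA c σ z * cPi' c z * cq c lam z * cE c ν z) +
      g z * cA c σ z * cPi c z * (lam ^ 2 * PB' + PB ^ 2 * cP' c z) * Qi * cE c ν z) * hI

end Core

end Pool.Agent.H52.BH
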