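import Pool.Agent.H52.BH.CIB

/-!
# Row A_IC: the oscillatory integral at a complex place, part 3: the core bound
-/

set_option autoImplicit false

open MeasureTheory Set Filter Complex
open scoped Topology

namespace Pool.Agent.H52.BH

open Pool.Agent.H29.BH
open Pool.Agent.H29.DW (dg Rl)

/-! ### Gluing in the plane -/

theorem cglue {f : ℂ → ℂ} (h : ∀ z, 1 / 4 < ‖z‖ → ContDiffAt ℝ 1 f z)
    (h0 : ∀ z, ‖z‖ < 1 / 2 → f z = 0) : ContDiff ℝ 1 f := by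
  rw [contDiff_iff_contDiffAt]
  intro z
  rcases lt_or_ge (1 / 4) ‖z‖ with hz | hz
  · exact h z hz
  · have h1 : f =ᶠ[𝓝 z] fun _ => 0 := by
      have h2 : z ∈ {z : ℂ | ‖z‖ < 1 / 2} := by
        show ‖z‖ < 1 / 2
        linarith
      filter_upwards [(isOpen_lt continuous_norm continuous_const).mem_nhds h2] with w hw
      exact h0 w hw
    exact contDiffAt_const.congr_of_eventuallyEq h1

theorem csupp {f : ℂ → ℂ} (h0 : ∀ z, 3 < ‖z‖ → f z = 0) : HasCompactSupport f := by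
  refine HasCompactSupport.intro (isCompact_closedBall (0 : ℂ) 3) fun z hz => h0 z ?_
  simpa using hz

theorem int_fderiv_zero {f : ℂ → ℂ} (hf : ContDiff ℝ 1 f) (h0 : ∀ z, 3 < ‖z‖ → f z = 0)
    (v : ℂ) : Integrable (fun z => fderiv ℝ f z v) ∧ ∫ z, fderiv ℝ f z v = 0 := by
  have hs := csupp h0
  have hc1 : Continuous (fun z => fderiv ℝ f z v) :=
    (hf.continuous_fderiv (by norm_num)).clm_apply continuous_const
  have hi : Integrable (fun z => fderiv ℝ f z v) := by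
    refine hc1.integrable_of_hasCompactSupport ?_
    exact (hs.fderiv (𝕜 := ℝ)).comp_left (g := fun L : ℂ →L[ℝ] ℂ => L v) (by simp)
  have hi0 : Integrable f := hf.continuous.integrable_of_hasCompactSupport hs
  refine ⟨hi, ?_⟩
  have h := integral_mul_fderiv_eq_neg_fderiv_mul_of_integrable (μ := (volume : Measure ℂ))
    (f := fun _ : ℂ => (1 : ℂ)) (g := f) (v := v) (by simp) (by simpa using hi)
    (by simpa using hi0) (fun x _ => differentiableAt_const _)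
    (fun x _ => (hf.differentiable (by norm_num)).differentiableAt)
  simpa using h

section Core

variable {c : Fin 4 → ℂ}

/-! ### Smoothness -/

theorem sm_cA (hc : ∀ i, ‖c i‖ ≤ 1 / 8) (σ : ℝ) {z : ℂ} (hz : 1 / 4 < ‖z‖) :
    ContDiffAt ℝ 1 (cA c σ) z := by
  have h1 : ContDiffAt ℂ 1 (cS c) z :=
    (((contDiffAt_clg (hc 0) hz).add (contDiffAt_clg (hc 1) hz)).add
      (contDiffAt_clg (hc 2) hz)).add (contDiffAt_clg (hc 3) hz)
  have h2 : ContDiffAt ℝ 1 (fun z => (cS c z).re) z :=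
    Complex.reCLM.contDiff.contDiffAt.comp z (h1.restrict_scalars ℝ)
  have h3 : ContDiffAt ℝ 1 (fun z => Real.exp (σ * (cS c z).re)) z :=
    (contDiffAt_const.mul h2).exp
  exact Complex.ofRealCLM.contDiff.contDiffAt.comp z h3

theorem sm_cE (hc : ∀ i, ‖c i‖ ≤ 1 / 8) (ν : ℂ) {z : ℂ} (hz : 1 / 4 < ‖z‖) :
    ContDiffAt ℝ 1 (cE c ν) z := by
  have h1 : ContDiffAt ℂ 1 (cL c) z :=
    (((contDiffAt_clg (hc 0) hz).add (contDiffAt_clg (hc 1) hz)).sub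
      (contDiffAt_clg (hc 2) hz)).sub (contDiffAt_clg (hc 3) hz)
  have h2 : ContDiffAt ℝ 1 (fun z => (ν * cL c z).re) z :=
    Complex.reCLM.contDiff.contDiffAt.comp z ((contDiffAt_const.mul h1).restrict_scalars ℝ)
  have h3 : ContDiffAt ℝ 1 (fun z => (((ν * cL c z).re : ℝ) : ℂ)) z :=
    Complex.ofRealCLM.contDiff.contDiffAt.comp z h2
  exact (h3.mul contDiffAt_const).cexp

theorem sm_cP : ContDiff ℝ 1 (cP c) := by
  have h : ContDiff ℂ 1 (cP c) := by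
    unfold cP
    fun_prop
  exact h.restrict_scalars ℝ

theorem sm_cPi : ContDiff ℝ 1 (cPi c) := by
  have h : ContDiff ℂ 1 (cPi c) := by
    unfold cPi
    fun_prop
  exact h.restrict_scalars ℝ

theorem sm_cq {lam : ℝ} (hl : 0 < lam) : ContDiff ℝ 1 (cq c lam) := by
  have h1 : ContDiff ℝ 1 (fun z => (starRingEnd ℂ) (cP c z)) :=
    Complex.conjCLE.contDiff.comp sm_cP
  have h2 : ContDiff ℝ 1 (cQ c lam) := (sm_cP.mul h1).add contDiff_const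
  have h3 := h1.mul (h2.inv (cQ_ne c hl))
  have h4 : cq c lam = fun z => (starRingEnd ℂ) (cP c z) * (cQ c lam z)⁻¹ := by
    funext z
    exact div_eq_mul_inv _ _
  rw [h4]
  exact h3

theorem sm_cF {g : ℂ → ℂ} (hc : ∀ i, ‖c i‖ ≤ 1 / 8) (σ : ℝ) (ν : ℂ) {lam : ℝ} (hl : 0 < lam)
    (hg : ContDiff ℝ 1 g) (h0 : ∀ z, ‖z‖ < 1 / 2 → g z = 0) :
    ContDiff ℝ 1 (cF g c σ ν lam) := by
  refine cglue (fun z hz => ?_) fun z hz => ?_
  · exact (((hg.contDiffAt.mul (sm_cA hc σ hz)).mul sm_cPi.contDiffAt).mul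
      (sm_cq hl).contDiffAt).mul (sm_cE hc ν hz)
  · unfold cF
    rw [h0 z hz]
    ring

/-- the integrand -/
noncomputable def cT (g : ℂ → ℂ) (c : Fin 4 → ℂ) (σ : ℝ) (ν : ℂ) (z : ℂ) : ℂ :=
  g z * cA c σ z * cE c ν z

theorem sm_cT {g : ℂ → ℂ} (hc : ∀ i, ‖c i‖ ≤ 1 / 8) (σ : ℝ) (ν : ℂ)
    (hg : ContDiff ℝ 1 g) (h0 : ∀ z, ‖z‖ < 1 / 2 → g z = 0) :
    ContDiff ℝ 1 (cT g c σ ν) := by
  refine cglue (fun z hz => ?_) fun z hz => ?_
  · exact (hg.contDiffAt.mul (sm_cA hc σ hz)).mul (sm_cE hc ν hz)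
  · unfold cT
    rw [h0 z hz]
    ring

/-! ### Bounds -/

theorem cadd_bd {b z : ℂ} (hb : ‖b‖ ≤ 1 / 8) (hz : ‖z‖ ≤ 3) : ‖z + b‖ ≤ 25 / 8 := by
  have := norm_add_le z b
  linarith

theorem cA_bd (hc : ∀ i, ‖c i‖ ≤ 1 / 8) {σ : ℝ} (hσ : |σ| ≤ 8) {z : ℂ} (hz : 1 / 2 ≤ ‖z‖) :
    ‖cA c σ z‖ ≤ Real.exp 12 := by
  unfold cA
  rw [Complex.norm_real, Real.norm_of_nonneg (Real.exp_pos _).le, Real.exp_le_exp]
  have h0 := norm_clg_le (hc 0) hz
  have h1 := norm_clg_le (hc 1) hz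
  have h2 := norm_clg_le (hc 2) hz
  have h3 := norm_clg_le (hc 3) hz
  have h4 : |(cS c z).re| ≤ 3 / 2 := by
    refine (Complex.abs_re_le_norm _).trans ?_
    unfold cS
    refine (norm_add_le _ _).trans ?_
    have h5 := norm_add_le (clg (c 0) z + clg (c 1) z) (clg (c 2) z)
    have h6 := norm_add_le (clg (c 0) z) (clg (c 1) z)
    linarith
  calc σ * (cS c z).re ≤ |σ * (cS c z).re| := le_abs_self _
    _ = |σ| * |(cS c z).re| := abs_mul _ _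
    _ ≤ 8 * (3 / 2) := by gcongr
    _ = 12 := by norm_num

theorem csub_bd {b z : ℂ} (hb : ‖b‖ ≤ 1 / 8) (hz : 1 / 2 ≤ ‖z‖) :
    ‖1 / (z + b) - 1 / z‖ ≤ 2 / 3 := by
  have hz' : 1 / 4 < ‖z‖ := by linarith
  have h0 := cz_ne hz'
  have h1 := cadd_ne hb hz'
  have h2 : 1 / (z + b) - 1 / z = -b / (z * (z + b)) := by
    field_simp
    ring
  have h3 : 3 / 8 ≤ ‖z + b‖ := by
    have h4 : ‖z‖ ≤ ‖z + b‖ + ‖b‖ := by
      have := norm_sub_le (z + b) b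
      simpa using this
    linarith
  rw [h2, norm_div, norm_neg, norm_mul, div_le_iff₀ (by positivity)]
  have h4 : 1 / 2 * (3 / 8) ≤ ‖z‖ * ‖z + b‖ := by gcongr
  linarith

theorem cS'_bd (hc : ∀ i, ‖c i‖ ≤ 1 / 8) {z : ℂ} (hz : 1 / 2 ≤ ‖z‖) : ‖cS' c z‖ ≤ 8 / 3 := by
  unfold cS'
  have h0 := csub_bd (hc 0) hz
  have h1 := csub_bd (hc 1) hz
  have h2 := csub_bd (hc 2) hz
  have h3 := csub_bd (hc 3) hz
  refine (norm_add_le _ _).trans ?_
  have h5 := norm_add_le (1 / (z + c 0) - 1 / z + (1 / (z + c 1) - 1 / z)) (1 / (z + c 2) - 1 / z)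
  have h6 := norm_add_le (1 / (z + c 0) - 1 / z) (1 / (z + c 1) - 1 / z)
  linarith

theorem cPi_bd (hc : ∀ i, ‖c i‖ ≤ 1 / 8) {z : ℂ} (hz : ‖z‖ ≤ 3) : ‖cPi c z‖ ≤ 96 := by
  unfold cPi
  rw [norm_mul, norm_mul, norm_mul]
  calc ‖z + c 0‖ * ‖z + c 1‖ * ‖z + c 2‖ * ‖z + c 3‖
      ≤ 25 / 8 * (25 / 8) * (25 / 8) * (25 / 8) := by
        gcongr <;> exact cadd_bd (hc _) hz
    _ ≤ 96 := by norm_num

theorem cPi'_bd (hc : ∀ i, ‖c i‖ ≤ 1 / 8) {z : ℂ} (hz : ‖z‖ ≤ 3) : ‖cPi' c z‖ ≤ 123 := by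
  have h : ∀ i j k, ‖(z + c i) * (z + c j) * (z + c k)‖ ≤ 25 / 8 * (25 / 8) * (25 / 8) := by
    intro i j k
    rw [norm_mul, norm_mul]
    gcongr <;> exact cadd_bd (hc _) hz
  unfold cPi'
  have h1 := h 1 2 3
  have h2 := h 0 2 3
  have h3 := h 0 1 3
  have h4 := h 0 1 2
  refine (norm_add_le _ _).trans ?_
  have h5 := norm_add_le ((z + c 1) * (z + c 2) * (z + c 3) + (z + c 0) * (z + c 2) * (z + c 3))
    ((z + c 0) * (z + c 1) * (z + c 3))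
  have h6 := norm_add_le ((z + c 1) * (z + c 2) * (z + c 3)) ((z + c 0) * (z + c 2) * (z + c 3))
  linarith

end Core

end Pool.Agent.H52.BH
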