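import Pool.Agent.H52.BH.CIC

/-!
# Row A_IC: the oscillatory integral at a complex place, part 4: the core bound
-/

set_option autoImplicit false

open MeasureTheory Set Filter Complex
open scoped Topology

namespace Pool.Agent.H52.BH

open Pool.Agent.H29.BH
open Pool.Agent.H29.DW (dg Rl)

section Core

variable {c : Fin 4 → ℂ}

/-- what remains after the integration by parts -/
noncomputable def cR (g : ℂ → ℂ) (c : Fin 4 → ℂ) (σ : ℝ) (ν : ℂ) (lam : ℝ) (z : ℂ) : ℂ :=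
  (((fderiv ℝ g z 1 - I * fderiv ℝ g z I) * cPi c z + g z * (σ * cS' c z) * cPi c z +
        2 * g z * cPi' c z) * cA c σ z * cq c lam z +
      g z * cA c σ z * cPi c z *
        (-2 * (starRingEnd ℂ) (cP c z) ^ 2 * cP' c z / cQ c lam z ^ 2)) * cE c ν z

theorem norm_cq (lam : ℝ) (z : ℂ) : ‖cq c lam z‖ = ‖cP c z‖ / (‖cP c z‖ ^ 2 + lam ^ 2) := by
  unfold cq
  rw [norm_div, norm_cQ, RCLike.norm_conj]

theorem cR_bd {g : ℂ → ℂ} (hc : ∀ i, ‖c i‖ ≤ 1 / 8) {σ : ℝ} (hσ : |σ| ≤ 8) (ν : ℂ) {lam : ℝ}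
    (hl : 0 < lam) {B : ℝ} (hB : 0 ≤ B) {z : ℂ} (hz : 1 / 2 ≤ ‖z‖) (hz3 : ‖z‖ ≤ 3)
    (hg : ‖g z‖ ≤ B) (hg' : ‖fderiv ℝ g z‖ ≤ B) :
    ‖cR g c σ ν lam z‖ ≤ 2486 * Real.exp 12 * B *
      ((‖cP c z‖ + ‖cP' c z‖) / (‖cP c z‖ ^ 2 + lam ^ 2)) := by
  unfold cR
  rw [norm_mul, norm_cE, mul_one]
  have hA := cA_bd hc hσ hz
  have hS := cS'_bd hc hz
  have hP := cPi_bd hc hz3
  have hP' := cPi'_bd hc hz3
  have he : 0 ≤ Real.exp 12 := (Real.exp_pos _).le
  set Q := ‖cP c z‖ ^ 2 + lam ^ 2 with hQ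
  have hQ0 : 0 < Q := by positivity
  have h1 : ‖fderiv ℝ g z 1‖ ≤ B := by
    refine (ContinuousLinearMap.le_opNorm _ _).trans ?_
    rw [norm_one, mul_one]
    exact hg'
  have h2 : ‖I * fderiv ℝ g z I‖ ≤ B := by
    rw [norm_mul, Complex.norm_I, one_mul]
    refine (ContinuousLinearMap.le_opNorm _ _).trans ?_
    rw [Complex.norm_I, mul_one]
    exact hg'
  have h3 : ‖fderiv ℝ g z 1 - I * fderiv ℝ g z I‖ ≤ 2 * B := by
    refine (norm_sub_le _ _).trans ?_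
    linarith
  have h4 : ‖(fderiv ℝ g z 1 - I * fderiv ℝ g z I) * cPi c z + g z * (σ * cS' c z) * cPi c z +
      2 * g z * cPi' c z‖ ≤ 2486 * B := by
    refine (norm_add_le _ _).trans ?_
    have e1 := norm_add_le ((fderiv ℝ g z 1 - I * fderiv ℝ g z I) * cPi c z)
      (g z * (σ * cS' c z) * cPi c z)
    have e2 : ‖(fderiv ℝ g z 1 - I * fderiv ℝ g z I) * cPi c z‖ ≤ 2 * B * 96 := by
      rw [norm_mul]
      gcongr
    have e3 : ‖g z * (σ * cS' c z) * cPi c z‖ ≤ B * (8 * (8 / 3)) * 96 := by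
      rw [norm_mul, norm_mul, norm_mul, Complex.norm_real, Real.norm_eq_abs]
      gcongr
    have e4 : ‖2 * g z * cPi' c z‖ ≤ 2 * B * 123 := by
      rw [norm_mul, norm_mul, Complex.norm_ofNat]
      gcongr
    linarith
  have h5 : ‖((fderiv ℝ g z 1 - I * fderiv ℝ g z I) * cPi c z + g z * (σ * cS' c z) * cPi c z +
      2 * g z * cPi' c z) * cA c σ z * cq c lam z‖ ≤
      2486 * B * Real.exp 12 * (‖cP c z‖ / Q) := by
    rw [norm_mul, norm_mul, norm_cq]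
    gcongr
  have h6 : ‖cP c z‖ ^ 2 / Q ≤ 1 := by
    rw [div_le_one hQ0]
    have : 0 ≤ lam ^ 2 := sq_nonneg _
    linarith
  have h7 : ‖g z * cA c σ z * cPi c z *
      (-2 * (starRingEnd ℂ) (cP c z) ^ 2 * cP' c z / cQ c lam z ^ 2)‖ ≤
      B * Real.exp 12 * 96 * (2 * (‖cP' c z‖ / Q)) := by
    rw [norm_mul, norm_mul, norm_mul]
    have e1 : ‖-2 * (starRingEnd ℂ) (cP c z) ^ 2 * cP' c z / cQ c lam z ^ 2‖ =
        2 * ((‖cP c z‖ ^ 2 / Q) * (‖cP' c z‖ / Q)) := by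
      rw [norm_div, norm_mul, norm_mul, norm_pow, norm_pow, norm_cQ, RCLike.norm_conj, norm_neg,
        Complex.norm_ofNat, ← hQ]
      field_simp
    rw [e1]
    have e2 : 0 ≤ ‖cP' c z‖ / Q := by positivity
    calc ‖g z‖ * ‖cA c σ z‖ * ‖cPi c z‖ * (2 * ((‖cP c z‖ ^ 2 / Q) * (‖cP' c z‖ / Q)))
        ≤ B * Real.exp 12 * 96 * (2 * (1 * (‖cP' c z‖ / Q))) := by gcongr
      _ = _ := by ring
  refine (norm_add_le _ _).trans ?_
  have h8 : B * Real.exp 12 * 96 * (2 * (‖cP' c z‖ / Q)) ≤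
      2486 * B * Real.exp 12 * (‖cP' c z‖ / Q) := by
    have e2 : 0 ≤ B * Real.exp 12 * (‖cP' c z‖ / Q) := by positivity
    nlinarith
  calc _ ≤ 2486 * B * Real.exp 12 * (‖cP c z‖ / Q) +
        2486 * B * Real.exp 12 * (‖cP' c z‖ / Q) := by linarith
    _ = _ := by
      rw [add_div]
      ring

/-- the core identity: integration by parts -/
theorem core_ident {g : ℂ → ℂ} (hc : ∀ i, ‖c i‖ ≤ 1 / 8) (σ : ℝ) (ν : ℂ) {lam : ℝ}
    (hl : 0 < lam) (hg : ContDiff ℝ 1 g) (h0 : ∀ z, ‖z‖ < 1 / 2 → g z = 0)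
    (h3 : ∀ z, 3 < ‖z‖ → g z = 0) :
    I * ν * ∫ z, cT g c σ ν z * ((‖cP c z‖ ^ 2 / (‖cP c z‖ ^ 2 + lam ^ 2) : ℝ) : ℂ) =
      ∫ z, cR g c σ ν lam z := by
  have hF := sm_cF hc σ ν hl hg h0
  have hF3 : ∀ z, 3 < ‖z‖ → cF g c σ ν lam z = 0 := fun z hz => by
    unfold cF
    rw [h3 z hz]
    ring
  obtain ⟨i1, z1⟩ := int_fderiv_zero hF hF3 1
  obtain ⟨i2, z2⟩ := int_fderiv_zero hF hF3 I
  have hT := sm_cT hc σ ν hg h0
  have hh : Continuous (fun z => ‖cP c z‖ ^ 2 / (‖cP c z‖ ^ 2 + lam ^ 2)) := by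
    have h1 : Continuous (fun z => ‖cP c z‖ ^ 2) := (sm_cP.continuous.norm).pow 2
    refine h1.div (h1.add continuous_const) fun z => ?_
    positivity
  have hTh : Integrable
      (fun z => cT g c σ ν z * ((‖cP c z‖ ^ 2 / (‖cP c z‖ ^ 2 + lam ^ 2) : ℝ) : ℂ)) := by
    refine Continuous.integrable_of_hasCompactSupport
      (hT.continuous.mul (Complex.continuous_ofReal.comp hh)) (csupp fun z hz => ?_)
    unfold cT
    rw [h3 z hz]
    ring
  have hpt : ∀ z, cR g c σ ν lam z = (fderiv ℝ (cF g c σ ν lam) z 1 -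
      I * fderiv ℝ (cF g c σ ν lam) z I) +
      I * ν * (cT g c σ ν z * ((‖cP c z‖ ^ 2 / (‖cP c z‖ ^ 2 + lam ^ 2) : ℝ) : ℂ)) := by
    intro z
    rcases lt_or_ge (1 / 4) ‖z‖ with hz | hz
    · have hgd : DifferentiableAt ℝ g z := (hg.differentiable (by norm_num)).differentiableAt
      have hFd : DifferentiableAt ℝ (cF g c σ ν lam) z :=
        (hF.differentiable (by norm_num)).differentiableAt
      have e1 := (hl_cF hc σ ν hl hz hgd 1).lineDeriv
      have e2 := (hl_cF hc σ ν hl hz hgd I).lineDeriv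
      rw [hFd.lineDeriv_eq_fderiv] at e1 e2
      rw [e1, e2, cDF_comb g hc σ ν lam hz]
      unfold cR cT
      ring
    · have hz2 : ‖z‖ < 1 / 2 := by linarith
      have h2 : z ∈ {z : ℂ | ‖z‖ < 1 / 2} := hz2
      have hn := (isOpen_lt continuous_norm continuous_const).mem_nhds h2
      have h4 : g =ᶠ[𝓝 z] fun _ => 0 := by
        filter_upwards [hn] with w hw
        exact h0 w hw
      have h5 : cF g c σ ν lam =ᶠ[𝓝 z] fun _ => 0 := by
        filter_upwards [hn] with w hw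
        unfold cF
        rw [h0 w hw]
        ring
      rw [h5.fderiv_eq]
      unfold cR cT
      rw [h4.fderiv_eq, h0 z hz2]
      simp
  have hIn : Integrable (fun z => fderiv ℝ (cF g c σ ν lam) z 1 -
      I * fderiv ℝ (cF g c σ ν lam) z I) := i1.sub (i2.const_mul I)
  rw [integral_congr_ae (ae_of_all _ hpt), integral_add hIn (hTh.const_mul _),
    integral_sub i1 (i2.const_mul I), MeasureTheory.integral_const_mul,
    MeasureTheory.integral_const_mul, z1, z2]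
  ring

end Core

end Pool.Agent.H52.BH
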