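import Mathlib

/-!
# Real quadratic polynomials: lower bounds and integrals
-/

set_option autoImplicit false

open MeasureTheory Set Filter

namespace Pool.Agent.H52.BH

/-- a quadratic polynomial is bounded below by the distance to two points -/
theorem quad_lower (α β γ : ℝ) (hD : β ^ 2 - α * γ ≠ 0) :
    ∃ ρ₁ ρ₂ : ℝ, ∀ x : ℝ, √|β ^ 2 - α * γ| * min |x - ρ₁| |x - ρ₂| ≤
      |α * x ^ 2 + 2 * β * x + γ| := by
  by_cases hα : α = 0
  · subst hα
    have hβ : β ≠ 0 := by
      intro h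
      apply hD
      rw [h]
      ring
    refine ⟨-γ / (2 * β), -γ / (2 * β), fun x => ?_⟩
    have h1 : √|β ^ 2 - 0 * γ| = |β| := by
      rw [zero_mul, sub_zero, abs_of_nonneg (sq_nonneg β), Real.sqrt_sq_eq_abs]
    have h2 : (0 : ℝ) * x ^ 2 + 2 * β * x + γ = 2 * (β * (x - -γ / (2 * β))) := by
      field_simp
      ring
    rw [h1, min_self, h2, abs_mul, abs_mul, abs_of_pos (by norm_num : (0 : ℝ) < 2)]
    have : 0 ≤ |β| * |x - -γ / (2 * β)| := by positivity
    linarith
  · have hα' : 0 < |α| := abs_pos.2 hα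
    rcases lt_or_gt_of_ne hD with h | h
    · -- complex roots
      refine ⟨-β / α, -β / α, fun x => ?_⟩
      set s := √|β ^ 2 - α * γ| with hs
      have hs2 : s ^ 2 = α * γ - β ^ 2 := by
        rw [hs, Real.sq_sqrt (abs_nonneg _), abs_of_neg h]
        ring
      have hs0 : 0 ≤ s := Real.sqrt_nonneg _
      rw [min_self]
      have h1 : α * (α * x ^ 2 + 2 * β * x + γ) = (α * (x - -β / α)) ^ 2 + s ^ 2 := by
        rw [hs2]
        field_simp
        ring
      have h2 : |α| * |α * x ^ 2 + 2 * β * x + γ| = (|α| * |x - -β / α|) ^ 2 + s ^ 2 := by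
        rw [← abs_mul, h1, abs_of_nonneg (by positivity), ← abs_mul, sq_abs]
      have h3 : |α| * (s * |x - -β / α|) ≤ |α| * |α * x ^ 2 + 2 * β * x + γ| := by
        rw [h2]
        have h4 : 0 ≤ |α| * |x - -β / α| := by positivity
        nlinarith [sq_nonneg (|α| * |x - -β / α| - s), mul_nonneg h4 hs0]
      exact le_of_mul_le_mul_left h3 hα'
    · -- real roots
      set s := √|β ^ 2 - α * γ| with hs
      have hs2 : s ^ 2 = β ^ 2 - α * γ := by
        rw [hs, Real.sq_sqrt (abs_nonneg _), abs_of_pos h]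
      have hs0 : 0 ≤ s := Real.sqrt_nonneg _
      refine ⟨(-β + s) / α, (-β - s) / α, fun x => ?_⟩
      set ρ₁ := (-β + s) / α with h1
      set ρ₂ := (-β - s) / α with h2
      have h3 : α * x ^ 2 + 2 * β * x + γ = α * ((x - ρ₁) * (x - ρ₂)) := by
        have h5 : γ = (β ^ 2 - s ^ 2) / α := by
          rw [hs2]
          field_simp
          ring
        rw [h1, h2, h5]
        field_simp
        ring
      have h4 : 2 * s = |α| * |ρ₁ - ρ₂| := by
        rw [← abs_mul, h1, h2]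
        have h5 : α * ((-β + s) / α - (-β - s) / α) = 2 * s := by
          field_simp
          ring
        rw [h5, abs_of_nonneg (by positivity)]
      have h5 : |ρ₁ - ρ₂| ≤ |x - ρ₁| + |x - ρ₂| := by
        have h6 : ρ₁ - ρ₂ = -(x - ρ₁) + (x - ρ₂) := by ring
        rw [h6]
        refine (abs_add_le _ _).trans ?_
        rw [abs_neg]
      have h6 : |x - ρ₁| + |x - ρ₂| ≤ 2 * max |x - ρ₁| |x - ρ₂| := by
        have := le_max_left |x - ρ₁| |x - ρ₂|
        have := le_max_right |x - ρ₁| |x - ρ₂|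
        linarith
      have h7 : s ≤ |α| * max |x - ρ₁| |x - ρ₂| := by
        have h8 : |α| * |ρ₁ - ρ₂| ≤ |α| * (2 * max |x - ρ₁| |x - ρ₂|) :=
          mul_le_mul_of_nonneg_left (h5.trans h6) hα'.le
        linarith
      rw [h3, abs_mul, abs_mul]
      have h8 : |x - ρ₁| * |x - ρ₂| = min |x - ρ₁| |x - ρ₂| * max |x - ρ₁| |x - ρ₂| :=
        (min_mul_max _ _).symm
      rw [h8]
      have h9 : 0 ≤ min |x - ρ₁| |x - ρ₂| := le_min (abs_nonneg _) (abs_nonneg _)
      calc s * min |x - ρ₁| |x - ρ₂|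
          ≤ (|α| * max |x - ρ₁| |x - ρ₂|) * min |x - ρ₁| |x - ρ₂| :=
            mul_le_mul_of_nonneg_right h7 h9
        _ = |α| * (min |x - ρ₁| |x - ρ₂| * max |x - ρ₁| |x - ρ₂|) := by ring

theorem abs_arctan_sub_le (u v : ℝ) : |Real.arctan u - Real.arctan v| ≤ Real.pi := by
  have h1 := Real.arctan_lt_pi_div_two u
  have h2 := Real.neg_pi_div_two_lt_arctan u
  have h3 := Real.arctan_lt_pi_div_two v
  have h4 := Real.neg_pi_div_two_lt_arctan v
  rw [abs_le]
  constructor <;> linarith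

/-- the integral of `λ² / (δ² (x - ρ)² + λ²)` -/
theorem int_lorentz (a b δ lam ρ : ℝ) (hδ : 0 < δ) (hl : 0 < lam) :
    ∫ x in a..b, lam ^ 2 / (δ ^ 2 * (x - ρ) ^ 2 + lam ^ 2) ≤ Real.pi * lam / δ := by
  have hd : ∀ x ∈ uIcc a b, HasDerivAt (fun x => lam / δ * Real.arctan (δ * (x - ρ) / lam))
      (lam ^ 2 / (δ ^ 2 * (x - ρ) ^ 2 + lam ^ 2)) x := by
    intro x _
    have h1 : HasDerivAt (fun x => δ * (x - ρ) / lam) (δ / lam) x := by
      have := (((hasDerivAt_id x).sub_const ρ).const_mul δ).div_const lam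
      simpa using this
    have h2 := (h1.arctan).const_mul (lam / δ)
    refine h2.congr_deriv ?_
    have h3 : (0 : ℝ) < δ ^ 2 * (x - ρ) ^ 2 + lam ^ 2 := by positivity
    have h4 : (0 : ℝ) < 1 + (δ * (x - ρ) / lam) ^ 2 := by positivity
    field_simp
    ring
  have hc : IntervalIntegrable (fun x => lam ^ 2 / (δ ^ 2 * (x - ρ) ^ 2 + lam ^ 2)) volume a b := by
    apply Continuous.intervalIntegrable
    refine Continuous.div (by fun_prop) (by fun_prop) fun x => ?_
    positivity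
  rw [intervalIntegral.integral_eq_sub_of_hasDerivAt hd hc, ← mul_sub]
  calc lam / δ * (Real.arctan (δ * (b - ρ) / lam) - Real.arctan (δ * (a - ρ) / lam))
      ≤ lam / δ * Real.pi := by
        refine mul_le_mul_of_nonneg_left ?_ (by positivity)
        exact (le_abs_self _).trans (abs_arctan_sub_le _ _)
    _ = Real.pi * lam / δ := by ring

/-- the part near the roots -/
theorem quad_near (α β γ lam : ℝ) (hD : β ^ 2 - α * γ ≠ 0) (hl : 0 < lam) (a b : ℝ)
    (hab : a ≤ b) :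
    ∫ x in a..b, lam ^ 2 / ((α * x ^ 2 + 2 * β * x + γ) ^ 2 + lam ^ 2) ≤
      2 * (Real.pi * lam / √|β ^ 2 - α * γ|) := by
  obtain ⟨ρ₁, ρ₂, h⟩ := quad_lower α β γ hD
  set δ := √|β ^ 2 - α * γ| with hδ
  have hδ0 : 0 < δ := Real.sqrt_pos.2 (abs_pos.2 hD)
  have hc : ∀ ρ : ℝ, IntervalIntegrable (fun x => lam ^ 2 / (δ ^ 2 * (x - ρ) ^ 2 + lam ^ 2))
      volume a b := by
    intro ρ
    apply Continuous.intervalIntegrable
    refine Continuous.div (by fun_prop) (by fun_prop) fun x => ?_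
    positivity
  have hc0 : IntervalIntegrable
      (fun x => lam ^ 2 / ((α * x ^ 2 + 2 * β * x + γ) ^ 2 + lam ^ 2)) volume a b := by
    apply Continuous.intervalIntegrable
    refine Continuous.div (by fun_prop) (by fun_prop) fun x => ?_
    positivity
  have h1 : ∫ x in a..b, lam ^ 2 / ((α * x ^ 2 + 2 * β * x + γ) ^ 2 + lam ^ 2) ≤
      ∫ x in a..b, (lam ^ 2 / (δ ^ 2 * (x - ρ₁) ^ 2 + lam ^ 2) +
        lam ^ 2 / (δ ^ 2 * (x - ρ₂) ^ 2 + lam ^ 2)) := by
    refine intervalIntegral.integral_mono_on hab hc0 ((hc ρ₁).add (hc ρ₂)) fun x _ => ?_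
    have h2 := h x
    have hp1 : 0 ≤ lam ^ 2 / (δ ^ 2 * (x - ρ₁) ^ 2 + lam ^ 2) := by positivity
    have hp2 : 0 ≤ lam ^ 2 / (δ ^ 2 * (x - ρ₂) ^ 2 + lam ^ 2) := by positivity
    have key : ∀ ρ : ℝ, δ * |x - ρ| ≤ |α * x ^ 2 + 2 * β * x + γ| →
        lam ^ 2 / ((α * x ^ 2 + 2 * β * x + γ) ^ 2 + lam ^ 2) ≤
          lam ^ 2 / (δ ^ 2 * (x - ρ) ^ 2 + lam ^ 2) := by
      intro ρ h3
      refine div_le_div_of_nonneg_left (by positivity) (by positivity) ?_
      have h4 : δ ^ 2 * (x - ρ) ^ 2 ≤ (α * x ^ 2 + 2 * β * x + γ) ^ 2 := by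
        rw [← sq_abs (x - ρ), ← mul_pow, ← sq_abs (α * x ^ 2 + 2 * β * x + γ)]
        exact pow_le_pow_left₀ (by positivity) h3 2
      linarith
    rcases le_total |x - ρ₁| |x - ρ₂| with h3 | h3
    · rw [min_eq_left h3] at h2
      have := key ρ₁ h2
      linarith
    · rw [min_eq_right h3] at h2
      have := key ρ₂ h2
      linarith
  refine h1.trans ?_
  rw [intervalIntegral.integral_add (hc ρ₁) (hc ρ₂)]
  have h2 := int_lorentz a b δ lam ρ₁ hδ0 hl
  have h3 := int_lorentz a b δ lam ρ₂ hδ0 hl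
  linarith

/-- the total variation of `arctan(P / λ) / λ` -/
theorem quad_var (α β γ lam : ℝ) (hl : 0 < lam) (a b : ℝ) (hab : a ≤ b) :
    ∫ x in a..b, |2 * α * x + 2 * β| / ((α * x ^ 2 + 2 * β * x + γ) ^ 2 + lam ^ 2) ≤
      2 * (Real.pi / lam) := by
  -- pieces of constant sign
  obtain ⟨c, s₁, s₂, hs₁, hs₂, h1, h2⟩ : ∃ c s₁ s₂ : ℝ, |s₁| ≤ 1 ∧ |s₂| ≤ 1 ∧
      (∀ x ≤ c, |2 * α * x + 2 * β| = s₁ * (2 * α * x + 2 * β)) ∧
      ∀ x, c ≤ x → |2 * α * x + 2 * β| = s₂ * (2 * α * x + 2 * β) := by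
    rcases lt_trichotomy α 0 with hα | hα | hα
    · refine ⟨-β / α, 1, -1, by simp, by simp, fun x hx => ?_, fun x hx => ?_⟩
      · rw [le_div_iff_of_neg hα] at hx
        rw [abs_of_nonneg (by linarith)]
        ring
      · rw [div_le_iff_of_neg hα] at hx
        rw [abs_of_nonpos (by linarith)]
        ring
    · subst hα
      rcases le_total 0 β with hβ | hβ
      · refine ⟨0, 1, 1, by simp, by simp, fun x _ => ?_, fun x _ => ?_⟩ <;>
        · rw [abs_of_nonneg (by linarith)]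
          ring
      · refine ⟨0, -1, -1, by simp, by simp, fun x _ => ?_, fun x _ => ?_⟩ <;>
        · rw [abs_of_nonpos (by linarith)]
          ring
    · refine ⟨-β / α, -1, 1, by simp, by simp, fun x hx => ?_, fun x hx => ?_⟩
      · rw [le_div_iff₀ hα] at hx
        rw [abs_of_nonpos (by linarith)]
        ring
      · rw [div_le_iff₀ hα] at hx
        rw [abs_of_nonneg (by linarith)]
        ring
  set R := max (max |a| |b|) |c| with hR
  have hRa : -R ≤ a := by
    have : |a| ≤ R := (le_max_left _ _).trans (le_max_left _ _)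
    linarith [neg_abs_le a]
  have hRb : b ≤ R := by
    have : |b| ≤ R := (le_max_right _ _).trans (le_max_left _ _)
    linarith [le_abs_self b]
  have hRc : -R ≤ c ∧ c ≤ R := abs_le.1 (le_max_right _ _)
  have hcont : Continuous (fun x : ℝ =>
      |2 * α * x + 2 * β| / ((α * x ^ 2 + 2 * β * x + γ) ^ 2 + lam ^ 2)) := by
    refine Continuous.div (by fun_prop) (by fun_prop) fun x => ?_
    positivity
  have hcont' : Continuous (fun x : ℝ =>
      (2 * α * x + 2 * β) / ((α * x ^ 2 + 2 * β * x + γ) ^ 2 + lam ^ 2)) := by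
    refine Continuous.div (by fun_prop) (by fun_prop) fun x => ?_
    positivity
  have hii : ∀ u v : ℝ, IntervalIntegrable (fun x : ℝ =>
      |2 * α * x + 2 * β| / ((α * x ^ 2 + 2 * β * x + γ) ^ 2 + lam ^ 2)) volume u v :=
    fun u v => hcont.intervalIntegrable u v
  have hprim : ∀ u v s : ℝ, u ≤ v → |s| ≤ 1 →
      (∀ x ∈ Icc u v, |2 * α * x + 2 * β| = s * (2 * α * x + 2 * β)) →
      ∫ x in u..v, |2 * α * x + 2 * β| / ((α * x ^ 2 + 2 * β * x + γ) ^ 2 + lam ^ 2) ≤
        Real.pi / lam := by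
    intro u v s huv hs h3
    have h4 : ∫ x in u..v, |2 * α * x + 2 * β| / ((α * x ^ 2 + 2 * β * x + γ) ^ 2 + lam ^ 2) =
        ∫ x in u..v, s * ((2 * α * x + 2 * β) / ((α * x ^ 2 + 2 * β * x + γ) ^ 2 + lam ^ 2)) := by
      refine intervalIntegral.integral_congr fun x hx => ?_
      rw [uIcc_of_le huv] at hx
      rw [h3 x hx, mul_div_assoc]
    have hd : ∀ x ∈ uIcc u v, HasDerivAt
        (fun x => 1 / lam * Real.arctan ((α * x ^ 2 + 2 * β * x + γ) / lam))
        ((2 * α * x + 2 * β) / ((α * x ^ 2 + 2 * β * x + γ) ^ 2 + lam ^ 2)) x := by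
      intro x _
      have e1 : HasDerivAt (fun x : ℝ => (α * x ^ 2 + 2 * β * x + γ) / lam)
          ((2 * α * x + 2 * β) / lam) x := by
        have e2 : HasDerivAt (fun x : ℝ => α * x ^ 2) (α * (2 * x)) x := by
          simpa using (hasDerivAt_pow 2 x).const_mul α
        have e3 : HasDerivAt (fun x : ℝ => 2 * β * x) (2 * β) x := by
          simpa using (hasDerivAt_id x).const_mul (2 * β)
        have e4 := ((e2.add e3).add_const γ).div_const lam
        refine e4.congr_deriv ?_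
        ring
      have e5 := (e1.arctan).const_mul (1 / lam)
      refine e5.congr_deriv ?_
      have e6 : (0 : ℝ) < (α * x ^ 2 + 2 * β * x + γ) ^ 2 + lam ^ 2 := by positivity
      have e7 : (0 : ℝ) < 1 + ((α * x ^ 2 + 2 * β * x + γ) / lam) ^ 2 := by positivity
      field_simp
      ring
    rw [h4, intervalIntegral.integral_const_mul,
      intervalIntegral.integral_eq_sub_of_hasDerivAt hd (hcont'.intervalIntegrable u v), ← mul_sub]
    have h5 : |s * (1 / lam * (Real.arctan ((α * v ^ 2 + 2 * β * v + γ) / lam) -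
        Real.arctan ((α * u ^ 2 + 2 * β * u + γ) / lam)))| ≤ Real.pi / lam := by
      rw [abs_mul, abs_mul, abs_of_pos (by positivity : (0 : ℝ) < 1 / lam)]
      have h6 := abs_arctan_sub_le ((α * v ^ 2 + 2 * β * v + γ) / lam)
        ((α * u ^ 2 + 2 * β * u + γ) / lam)
      calc _ ≤ 1 * (1 / lam * Real.pi) := by gcongr
        _ = Real.pi / lam := by ring
    exact (le_abs_self _).trans h5
  have h3 : ∫ x in a..b, |2 * α * x + 2 * β| / ((α * x ^ 2 + 2 * β * x + γ) ^ 2 + lam ^ 2) ≤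
      ∫ x in (-R)..R, |2 * α * x + 2 * β| / ((α * x ^ 2 + 2 * β * x + γ) ^ 2 + lam ^ 2) := by
    refine intervalIntegral.integral_mono_interval hRa hab hRb ?_ (hii _ _)
    exact ae_of_all _ fun x => by positivity
  refine h3.trans ?_
  rw [← intervalIntegral.integral_add_adjacent_intervals (hii (-R) c) (hii c R)]
  have h4 := hprim (-R) c s₁ hRc.1 hs₁ (fun x hx => h1 x hx.2)
  have h5 := hprim c R s₂ hRc.2 hs₂ (fun x hx => h2 x hx.1)
  linarith

end Pool.Agent.H52.BH
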