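import Pool.Agent.H29.BH.Targets1
import Pool.Agent.H52.BH.Quad

/-!
# Row A_IR: the oscillatory integral at a real place, part 1
-/

set_option autoImplicit false

open MeasureTheory Set Filter Complex
open scoped Topology

namespace Pool.Agent.H52.BH

open Pool.Agent.H29.BH
open Pool.Agent.H29.DW (dg Rl)

/-! ### Gluing on the line -/

theorem glue_cont {f : ℝ → ℂ} (h : ContinuousOn f {x | 1 / 4 < |x|})
    (h0 : ∀ x, |x| < 1 / 2 → f x = 0) : Continuous f := by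
  have ho1 : IsOpen {x : ℝ | 1 / 4 < |x|} := isOpen_lt continuous_const continuous_abs
  have ho2 : IsOpen {x : ℝ | |x| < 1 / 2} := isOpen_lt continuous_abs continuous_const
  have h2 : ContinuousOn f {x : ℝ | |x| < 1 / 2} :=
    (continuousOn_const (c := (0 : ℂ))).congr (fun x hx => h0 x hx)
  have h3 := h.union_of_isOpen h2 ho1 ho2
  rw [← continuousOn_univ]
  refine h3.mono fun x _ => ?_
  rcases lt_or_ge (1 / 4) |x| with hx | hx
  · exact Or.inl hx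
  · exact Or.inr (show |x| < 1 / 2 by linarith)

theorem supp_compact {f : ℝ → ℂ} (h0 : ∀ x, 3 < |x| → f x = 0) : HasCompactSupport f := by
  refine HasCompactSupport.intro (isCompact_Icc (a := (-3 : ℝ)) (b := 3)) fun x hx => h0 x ?_
  by_contra h
  rw [not_lt, abs_le] at h
  exact hx ⟨h.1, h.2⟩

/-! ### The logarithms -/

/-- `log(1 + b / x)` -/
noncomputable def lg (b x : ℝ) : ℝ := Real.log (1 + b / x)

theorem pos_of {b x : ℝ} (hb : |b| ≤ 1 / 8) (hx : 1 / 4 < |x|) : 0 < 1 + b / x := by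
  have h1 : |b / x| < 1 := by
    rw [abs_div, div_lt_one (by linarith)]
    linarith
  have := neg_abs_le (b / x)
  linarith

theorem add_ne {b x : ℝ} (hb : |b| ≤ 1 / 8) (hx : 1 / 4 < |x|) : x + b ≠ 0 := by
  intro h
  have h1 : x = -b := by linarith
  rw [h1, abs_neg] at hx
  linarith

theorem x_ne {x : ℝ} (hx : 1 / 4 < |x|) : x ≠ 0 := by
  intro h
  rw [h, abs_zero] at hx
  linarith

theorem hasDerivAt_lg {b x : ℝ} (hb : |b| ≤ 1 / 8) (hx : 1 / 4 < |x|) :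
    HasDerivAt (lg b) (1 / (x + b) - 1 / x) x := by
  have hx0 := x_ne hx
  have hxb := add_ne hb hx
  have h1 : HasDerivAt (fun x => 1 + b / x) (-b / x ^ 2) x := by
    have h2 := (hasDerivAt_inv hx0).const_mul b
    have h3 := h2.const_add 1
    refine h3.congr_deriv ?_ |>.congr_of_eventuallyEq ?_
    · ring
    · exact Eventually.of_forall fun y => by simp [div_eq_mul_inv]
  have h4 := h1.log (pos_of hb hx).ne'
  refine h4.congr_deriv ?_
  have h5 : 1 + b / x = (x + b) / x := by field_simp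
  rw [h5]
  field_simp
  ring

theorem abs_lg_le {b x : ℝ} (hb : |b| ≤ 1 / 8) (hx : 1 / 2 ≤ |x|) : |lg b x| ≤ 1 / 3 := by
  have hx' : 1 / 4 < |x| := by linarith
  have h1 : |b / x| ≤ 1 / 4 := by
    rw [abs_div, div_le_iff₀ (by linarith)]
    linarith
  have h2 := abs_le.1 h1
  have hp := pos_of hb hx'
  unfold lg
  rw [abs_le]
  constructor
  · have h3 := Real.one_sub_inv_le_log_of_pos hp
    have h4 : (1 + b / x)⁻¹ ≤ 4 / 3 := by
      rw [inv_le_comm₀ hp (by norm_num)]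
      linarith
    linarith
  · have h3 := Real.log_le_sub_one_of_pos hp
    linarith

/-! ### The quasi-character -/

theorem Gm_pos (k : ℤ) (μ : ℂ) {w : ℝ} (hw : 0 < w) :
    Gm k μ (w : ℂ) = cexp (μ * ((Real.log w : ℝ) : ℂ)) := by
  unfold Gm
  have h1 : ‖(w : ℂ)‖ = w := by
    rw [Complex.norm_real, Real.norm_of_nonneg hw.le]
  rw [h1]
  have h2 : (w : ℂ) / ((w : ℝ) : ℂ) = 1 := div_self (by exact_mod_cast hw.ne')
  rw [h2, one_zpow, one_mul]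

theorem g4_real (k : ℤ) (μ : ℂ) (b : Fin 4 → ℂ) (c : Fin 4 → ℝ) (hbc : ∀ i, b i = (c i : ℂ))
    (hc : ∀ i, |c i| ≤ 1 / 8) {x : ℝ} (hx : 1 / 4 < |x|) :
    g4 k μ b (x : ℂ) = ((Real.exp (μ.re * (lg (c 0) x + lg (c 1) x + lg (c 2) x + lg (c 3) x)) : ℝ)
      : ℂ) * cexp (((μ.im * (lg (c 0) x + lg (c 1) x - lg (c 2) x - lg (c 3) x) : ℝ) : ℂ) * I) := by
  have h1 : ∀ i, (1 : ℂ) + b i / (x : ℂ) = ((1 + c i / x : ℝ) : ℂ) := by
    intro i
    rw [hbc i]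
    push_cast
    rfl
  unfold g4
  rw [h1 0, h1 1, h1 2, h1 3, Gm_pos k μ (pos_of (hc 0) hx), Gm_pos k μ (pos_of (hc 1) hx),
    Gm_pos k μ (pos_of (hc 2) hx), Gm_pos k μ (pos_of (hc 3) hx), ← Complex.exp_conj,
    ← Complex.exp_conj, map_mul, map_mul, Complex.conj_ofReal, Complex.conj_ofReal,
    Complex.ofReal_exp, ← Complex.exp_add, ← Complex.exp_add, ← Complex.exp_add, ← Complex.exp_add]
  congr 1
  have h2 : μ = (μ.re : ℂ) + (μ.im : ℂ) * I := (Complex.re_add_im μ).symm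
  have h3 : (starRingEnd ℂ) μ = (μ.re : ℂ) - (μ.im : ℂ) * I := by
    apply Complex.ext <;> simp
  rw [h3]
  unfold lg
  nth_rewrite 1 2 [h2]
  push_cast
  ring

/-! ### Integrals of functions with support in `[-3, 3]` -/

theorem norm_int_le {f : ℝ → ℂ} {u : ℝ → ℝ} (hf0 : ∀ x, 3 < |x| → f x = 0)
    (hb : ∀ x, ‖f x‖ ≤ u x) (hu : Continuous u) : ‖∫ x, f x‖ ≤ ∫ x in (-3 : ℝ)..3, u x := by
  have h1 : ∫ x, f x = ∫ x in (-3 : ℝ)..3, f x := by
    rw [intervalIntegral.integral_of_le (by norm_num), ← integral_Icc_eq_integral_Ioc,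
      setIntegral_eq_integral_of_forall_compl_eq_zero]
    intro x hx
    apply hf0
    by_contra h
    rw [not_lt, abs_le] at h
    exact hx ⟨h.1, h.2⟩
  rw [h1]
  exact intervalIntegral.norm_integral_le_of_norm_le (by norm_num)
    (ae_of_all _ fun x _ => hb x) (hu.intervalIntegrable _ _)

/-! ### The phase and the amplitude -/

section Core

variable (c : Fin 4 → ℝ)

noncomputable def Sx (x : ℝ) : ℝ := lg (c 0) x + lg (c 1) x + lg (c 2) x + lg (c 3) x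
noncomputable def px (x : ℝ) : ℝ := lg (c 0) x + lg (c 1) x - lg (c 2) x - lg (c 3) x
noncomputable def Sx' (x : ℝ) : ℝ := (1 / (x + c 0) - 1 / x) + (1 / (x + c 1) - 1 / x) +
  (1 / (x + c 2) - 1 / x) + (1 / (x + c 3) - 1 / x)
noncomputable def px' (x : ℝ) : ℝ := (1 / (x + c 0) - 1 / x) + (1 / (x + c 1) - 1 / x) -
  (1 / (x + c 2) - 1 / x) - (1 / (x + c 3) - 1 / x)
def Pi4 (x : ℝ) : ℝ := (x + c 0) * (x + c 1) * (x + c 2) * (x + c 3)
def Pi4' (x : ℝ) : ℝ := (x + c 1) * (x + c 2) * (x + c 3) + (x + c 0) * (x + c 2) * (x + c 3) +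
  (x + c 0) * (x + c 1) * (x + c 3) + (x + c 0) * (x + c 1) * (x + c 2)
def al4 : ℝ := c 0 + c 1 - c 2 - c 3
def be4 : ℝ := c 0 * c 1 - c 2 * c 3
def ga4 : ℝ := (c 2 + c 3) * c 0 * c 1 - (c 0 + c 1) * c 2 * c 3
def P4 (x : ℝ) : ℝ := al4 c * x ^ 2 + 2 * be4 c * x + ga4 c

theorem disc4 : be4 c ^ 2 - al4 c * ga4 c =
    (c 0 - c 2) * (c 0 - c 3) * (c 1 - c 2) * (c 1 - c 3) := by
  unfold be4 al4 ga4
  ring

variable {c}

theorem hd_Sx (hc : ∀ i, |c i| ≤ 1 / 8) {x : ℝ} (hx : 1 / 4 < |x|) :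
    HasDerivAt (Sx c) (Sx' c x) x :=
  (((hasDerivAt_lg (hc 0) hx).add (hasDerivAt_lg (hc 1) hx)).add
    (hasDerivAt_lg (hc 2) hx)).add (hasDerivAt_lg (hc 3) hx)

theorem hd_px (hc : ∀ i, |c i| ≤ 1 / 8) {x : ℝ} (hx : 1 / 4 < |x|) :
    HasDerivAt (px c) (px' c x) x :=
  (((hasDerivAt_lg (hc 0) hx).add (hasDerivAt_lg (hc 1) hx)).sub
    (hasDerivAt_lg (hc 2) hx)).sub (hasDerivAt_lg (hc 3) hx)

theorem px'_eq (hc : ∀ i, |c i| ≤ 1 / 8) {x : ℝ} (hx : 1 / 4 < |x|) :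
    Pi4 c x * px' c x = -P4 c x := by
  have h := x_ne hx
  have h0 := add_ne (hc 0) hx
  have h1 := add_ne (hc 1) hx
  have h2 := add_ne (hc 2) hx
  have h3 := add_ne (hc 3) hx
  unfold Pi4 px' P4 al4 be4 ga4
  field_simp
  ring

theorem hd_Pi4 (x : ℝ) : HasDerivAt (Pi4 c) (Pi4' c x) x := by
  have h : ∀ i, HasDerivAt (fun x => x + c i) 1 x := fun i => (hasDerivAt_id x).add_const (c i)
  have h1 := (((h 0).mul (h 1)).mul (h 2)).mul (h 3)
  refine h1.congr_deriv ?_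
  unfold Pi4'
  simp only [Pi.mul_apply]
  ring

/-- the amplitude without `g` -/
noncomputable def kap (c : Fin 4 → ℝ) (σ x : ℝ) : ℝ := Real.exp (σ * Sx c x) * Pi4 c x
noncomputable def kap' (c : Fin 4 → ℝ) (σ x : ℝ) : ℝ :=
  Real.exp (σ * Sx c x) * (σ * Sx' c x) * Pi4 c x + Real.exp (σ * Sx c x) * Pi4' c x

theorem hd_kap (hc : ∀ i, |c i| ≤ 1 / 8) (σ : ℝ) {x : ℝ} (hx : 1 / 4 < |x|) :
    HasDerivAt (kap c σ) (kap' c σ x) x :=
  ((hd_Sx hc hx).const_mul σ).exp.mul (hd_Pi4 x)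

theorem abs_add_bd {b x : ℝ} (hb : |b| ≤ 1 / 8) (hx : |x| ≤ 3) : |x + b| ≤ 25 / 8 := by
  have := abs_add_le x b
  linarith

theorem exp_bd (hc : ∀ i, |c i| ≤ 1 / 8) {σ : ℝ} (hσ : |σ| ≤ 8) {x : ℝ} (hx : 1 / 2 ≤ |x|) :
    Real.exp (σ * Sx c x) ≤ Real.exp 11 := by
  rw [Real.exp_le_exp]
  have h0 := abs_lg_le (hc 0) hx
  have h1 := abs_lg_le (hc 1) hx
  have h2 := abs_lg_le (hc 2) hx
  have h3 := abs_lg_le (hc 3) hx
  have h4 : |Sx c x| ≤ 4 / 3 := by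
    unfold Sx
    rw [abs_le] at *
    constructor <;> linarith [h0.1, h0.2, h1.1, h1.2, h2.1, h2.2, h3.1, h3.2]
  calc σ * Sx c x ≤ |σ * Sx c x| := le_abs_self _
    _ = |σ| * |Sx c x| := abs_mul _ _
    _ ≤ 8 * (4 / 3) := by gcongr
    _ ≤ 11 := by norm_num

theorem one_sub_bd {b x : ℝ} (hb : |b| ≤ 1 / 8) (hx : 1 / 2 ≤ |x|) :
    |1 / (x + b) - 1 / x| ≤ 2 / 3 := by
  have hx' : 1 / 4 < |x| := by linarith
  have h0 := x_ne hx'
  have h1 := add_ne hb hx'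
  have h2 : 1 / (x + b) - 1 / x = -b / (x * (x + b)) := by
    field_simp
    ring
  have h3 : 3 / 8 ≤ |x + b| := by
    have h4 : |x| ≤ |x + b| + |b| := by
      have := abs_sub (x + b) b
      simpa using this
    linarith
  rw [h2, abs_div, abs_neg, abs_mul, div_le_iff₀ (by positivity)]
  have h4 : 1 / 2 * (3 / 8) ≤ |x| * |x + b| := by gcongr
  linarith

theorem Pi4_bd (hc : ∀ i, |c i| ≤ 1 / 8) {x : ℝ} (hx : |x| ≤ 3) : |Pi4 c x| ≤ 96 := by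
  unfold Pi4
  rw [abs_mul, abs_mul, abs_mul]
  calc |x + c 0| * |x + c 1| * |x + c 2| * |x + c 3| ≤ 25 / 8 * (25 / 8) * (25 / 8) * (25 / 8) := by
        gcongr <;> exact abs_add_bd (hc _) hx
    _ ≤ 96 := by norm_num

theorem Pi4'_bd (hc : ∀ i, |c i| ≤ 1 / 8) {x : ℝ} (hx : |x| ≤ 3) : |Pi4' c x| ≤ 123 := by
  have h : ∀ i j k, |(x + c i) * (x + c j) * (x + c k)| ≤ 25 / 8 * (25 / 8) * (25 / 8) := by
    intro i j k
    rw [abs_mul, abs_mul]
    gcongr <;> exact abs_add_bd (hc _) hx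
  unfold Pi4'
  have h1 := h 1 2 3
  have h2 := h 0 2 3
  have h3 := h 0 1 3
  have h4 := h 0 1 2
  rw [abs_le] at *
  constructor <;> linarith [h1.1, h1.2, h2.1, h2.2, h3.1, h3.2, h4.1, h4.2]

/-- the constant -/
noncomputable def K0 : ℝ := 2171 * Real.exp 11

theorem kap_bd (hc : ∀ i, |c i| ≤ 1 / 8) {σ : ℝ} (hσ : |σ| ≤ 8) {x : ℝ} (hx : 1 / 2 ≤ |x|)
    (hx3 : |x| ≤ 3) : |kap c σ x| ≤ K0 := by
  unfold kap K0
  have h1 := exp_bd hc hσ hx
  have h2 := Pi4_bd hc hx3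
  rw [abs_mul, abs_of_pos (Real.exp_pos _)]
  calc Real.exp (σ * Sx c x) * |Pi4 c x| ≤ Real.exp 11 * 96 := by gcongr
    _ ≤ 2171 * Real.exp 11 := by nlinarith [Real.exp_pos 11]

theorem kap'_bd (hc : ∀ i, |c i| ≤ 1 / 8) {σ : ℝ} (hσ : |σ| ≤ 8) {x : ℝ} (hx : 1 / 2 ≤ |x|)
    (hx3 : |x| ≤ 3) : |kap' c σ x| ≤ K0 := by
  unfold kap' K0
  have h1 := exp_bd hc hσ hx
  have h2 := Pi4_bd hc hx3
  have h3 := Pi4'_bd hc hx3
  have h4 : |Sx' c x| ≤ 8 / 3 := by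
    unfold Sx'
    have e0 := one_sub_bd (hc 0) hx
    have e1 := one_sub_bd (hc 1) hx
    have e2 := one_sub_bd (hc 2) hx
    have e3 := one_sub_bd (hc 3) hx
    rw [abs_le] at e0 e1 e2 e3 ⊢
    constructor <;> linarith [e0.1, e0.2, e1.1, e1.2, e2.1, e2.2, e3.1, e3.2]
  refine (abs_add_le _ _).trans ?_
  rw [abs_mul, abs_mul, abs_mul, abs_mul, abs_of_pos (Real.exp_pos _)]
  calc Real.exp (σ * Sx c x) * (|σ| * |Sx' c x|) * |Pi4 c x| +
        Real.exp (σ * Sx c x) * |Pi4' c x|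
      ≤ Real.exp 11 * (8 * (8 / 3)) * 96 + Real.exp 11 * 123 := by gcongr
    _ = 2171 * Real.exp 11 := by ring

end Core

end Pool.Agent.H52.BH
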