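import Pool.Agent.H52.BH.IRA

/-!
# Row A_IR: the oscillatory integral at a real place, part 2
-/

set_option autoImplicit false

open MeasureTheory Set Filter Complex
open scoped Topology

namespace Pool.Agent.H52.BH

open Pool.Agent.H29.BH
open Pool.Agent.H29.DW (dg Rl)

section Core

variable {c : Fin 4 → ℝ}

/-! ### The cut-off -/

noncomputable def qq (c : Fin 4 → ℝ) (lam x : ℝ) : ℝ := P4 c x / (P4 c x ^ 2 + lam ^ 2)
noncomputable def qq' (c : Fin 4 → ℝ) (lam x : ℝ) : ℝ :=
  (2 * al4 c * x + 2 * be4 c) * (lam ^ 2 - P4 c x ^ 2) / (P4 c x ^ 2 + lam ^ 2) ^ 2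

theorem hd_P4 (x : ℝ) : HasDerivAt (P4 c) (2 * al4 c * x + 2 * be4 c) x := by
  have e2 : HasDerivAt (fun x : ℝ => al4 c * x ^ 2) (al4 c * (2 * x)) x := by
    simpa using (hasDerivAt_pow 2 x).const_mul (al4 c)
  have e3 : HasDerivAt (fun x : ℝ => 2 * be4 c * x) (2 * be4 c) x := by
    simpa using (hasDerivAt_id x).const_mul (2 * be4 c)
  refine ((e2.add e3).add_const (ga4 c)).congr_deriv ?_
  ring

theorem hd_qq {lam : ℝ} (hl : 0 < lam) (x : ℝ) : HasDerivAt (qq c lam) (qq' c lam x) x := by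
  have h1 := hd_P4 (c := c) x
  have h2 : HasDerivAt (fun x => P4 c x ^ 2 + lam ^ 2)
      (2 * P4 c x * (2 * al4 c * x + 2 * be4 c)) x := by
    have := (h1.pow 2).add_const (lam ^ 2)
    refine this.congr_deriv ?_
    push_cast
    ring
  have h3 : P4 c x ^ 2 + lam ^ 2 ≠ 0 := by positivity
  refine (h1.div h2 h3).congr_deriv ?_
  unfold qq'
  congr 1
  ring

theorem abs_qq_le {lam : ℝ} (hl : 0 < lam) (x : ℝ) : |qq c lam x| ≤ 1 / (2 * lam) := by
  unfold qq
  have h3 : 0 < P4 c x ^ 2 + lam ^ 2 := by positivity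
  rw [abs_div, abs_of_pos h3, div_le_div_iff₀ h3 (by positivity), one_mul]
  nlinarith [sq_nonneg (|P4 c x| - lam), sq_abs (P4 c x)]

theorem abs_qq'_le {lam : ℝ} (hl : 0 < lam) (x : ℝ) :
    |qq' c lam x| ≤ |2 * al4 c * x + 2 * be4 c| / (P4 c x ^ 2 + lam ^ 2) := by
  unfold qq'
  have h3 : 0 < P4 c x ^ 2 + lam ^ 2 := by positivity
  rw [abs_div, abs_mul, abs_of_pos (pow_pos h3 2), div_le_div_iff₀ (pow_pos h3 2) h3]
  have h4 : |lam ^ 2 - P4 c x ^ 2| ≤ P4 c x ^ 2 + lam ^ 2 := by
    rw [abs_le]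
    constructor <;> nlinarith [sq_nonneg (P4 c x), sq_nonneg lam]
  calc |2 * al4 c * x + 2 * be4 c| * |lam ^ 2 - P4 c x ^ 2| * (P4 c x ^ 2 + lam ^ 2)
      ≤ |2 * al4 c * x + 2 * be4 c| * (P4 c x ^ 2 + lam ^ 2) * (P4 c x ^ 2 + lam ^ 2) := by gcongr
    _ = |2 * al4 c * x + 2 * be4 c| * (P4 c x ^ 2 + lam ^ 2) ^ 2 := by ring

theorem cont_P4 : Continuous (P4 c) := by
  unfold P4
  fun_prop

/-! ### The integral -/

/-- the exponential of the phase -/
noncomputable def Ex (c : Fin 4 → ℝ) (om x : ℝ) : ℂ := cexp (((om * px c x : ℝ) : ℂ) * I)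

theorem norm_Ex (om x : ℝ) : ‖Ex c om x‖ = 1 := Complex.norm_exp_ofReal_mul_I _

theorem hd_Ex (hc : ∀ i, |c i| ≤ 1 / 8) (om : ℝ) {x : ℝ} (hx : 1 / 4 < |x|) :
    HasDerivAt (Ex c om) (Ex c om x * (((om * px' c x : ℝ) : ℂ) * I)) x := by
  have h1 := (((hd_px hc hx).const_mul om).ofReal_comp.mul_const I).cexp
  exact h1

theorem core_real (hc : ∀ i, |c i| ≤ 1 / 8) {σ om lam B : ℝ} (hσ : |σ| ≤ 8) (hom : om ≠ 0)
    (hl : 0 < lam) (hB : 0 ≤ B) {G : ℝ → ℂ} (hG : ContDiff ℝ 1 G) (hGb : ∀ x, ‖G x‖ ≤ B)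
    (hG' : ∀ x, ‖deriv G x‖ ≤ B) (hGs : ∀ x, G x ≠ 0 → 1 / 2 ≤ |x| ∧ |x| ≤ 3) :
    ‖∫ x, (G x * ((Real.exp (σ * Sx c x) : ℝ) : ℂ) * Ex c om x) *
      (((P4 c x ^ 2 / (P4 c x ^ 2 + lam ^ 2) : ℝ)) : ℂ)‖ ≤ 13 * (K0 * B) / (|om| * lam) := by
  have hG0 : ∀ x, (|x| < 1 / 2 ∨ 3 < |x|) → G x = 0 := by
    intro x hx
    by_contra h
    obtain ⟨h1, h2⟩ := hGs x h
    rcases hx with hx | hx <;> linarith
  have hG'0 : ∀ x, (|x| < 1 / 2 ∨ 3 < |x|) → deriv G x = 0 := by
    intro x hx
    have ho : IsOpen {x : ℝ | |x| < 1 / 2 ∨ 3 < |x|} :=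
      (isOpen_lt continuous_abs continuous_const).union
        (isOpen_lt continuous_const continuous_abs)
    have h1 : G =ᶠ[𝓝 x] fun _ => 0 := by
      filter_upwards [ho.mem_nhds hx] with y hy using hG0 y hy
    rw [h1.deriv_eq]
    simp
  have hGd : ∀ x, HasDerivAt G (deriv G x) x := fun x =>
    (hG.differentiable (by norm_num) x).hasDerivAt
  have hGc : Continuous G := hG.continuous
  have hG'c : Continuous (deriv G) := hG.continuous_deriv (by norm_num)
  -- the functions
  set F : ℝ → ℂ := fun x => G x * ((kap c σ x * qq c lam x : ℝ) : ℂ) * Ex c om x with hF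
  set Rr : ℝ → ℂ := fun x => (deriv G x * ((kap c σ x * qq c lam x : ℝ) : ℂ) +
    G x * ((kap' c σ x * qq c lam x + kap c σ x * qq' c lam x : ℝ) : ℂ)) * Ex c om x with hR
  set T : ℝ → ℂ := fun x => (G x * ((Real.exp (σ * Sx c x) : ℝ) : ℂ) * Ex c om x) *
      (((P4 c x ^ 2 / (P4 c x ^ 2 + lam ^ 2) : ℝ)) : ℂ) with hT
  have hFd : ∀ x, HasDerivAt F (Rr x - ((om : ℂ) * I) * T x) x := by
    intro x
    rcases lt_or_ge (1 / 4) |x| with hx | hx
    · have h1 : HasDerivAt (fun x => ((kap c σ x * qq c lam x : ℝ) : ℂ))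
          ((kap' c σ x * qq c lam x + kap c σ x * qq' c lam x : ℝ) : ℂ) x :=
        ((hd_kap hc σ hx).mul (hd_qq hl x)).ofReal_comp
      have h2 := ((hGd x).mul h1).mul (hd_Ex hc om hx)
      refine h2.congr_deriv ?_
      have h3 : kap c σ x * qq c lam x * (om * px' c x) =
          -(om * (Real.exp (σ * Sx c x) * (P4 c x ^ 2 / (P4 c x ^ 2 + lam ^ 2)))) := by
        have h4 := px'_eq hc hx
        unfold kap qq
        calc Real.exp (σ * Sx c x) * Pi4 c x * (P4 c x / (P4 c x ^ 2 + lam ^ 2)) *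
              (om * px' c x) = Real.exp (σ * Sx c x) * (P4 c x / (P4 c x ^ 2 + lam ^ 2)) *
              (om * (Pi4 c x * px' c x)) := by ring
          _ = _ := by
            rw [h4]
            ring
      have h5 : ((kap c σ x * qq c lam x : ℝ) : ℂ) * (((om * px' c x : ℝ) : ℂ)) =
          ((-(om * (Real.exp (σ * Sx c x) * (P4 c x ^ 2 / (P4 c x ^ 2 + lam ^ 2)))) : ℝ) : ℂ) := by
        rw [← h3]
        push_cast
        ring
      simp only [hR, hT, Pi.mul_apply]
      calc _ = (deriv G x * ((kap c σ x * qq c lam x : ℝ) : ℂ) +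
            G x * ((kap' c σ x * qq c lam x + kap c σ x * qq' c lam x : ℝ) : ℂ)) * Ex c om x +
            G x * (((kap c σ x * qq c lam x : ℝ) : ℂ) * (((om * px' c x : ℝ) : ℂ))) *
              Ex c om x * I := by ring
        _ = _ := by
          rw [h5]
          push_cast
          ring
    · have hx' : |x| < 1 / 2 := by linarith
      have ho : IsOpen {x : ℝ | |x| < 1 / 2} := isOpen_lt continuous_abs continuous_const
      have h1 : F =ᶠ[𝓝 x] fun _ => 0 := by
        filter_upwards [ho.mem_nhds hx'] with y hy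
        simp only [hF]
        rw [hG0 y (Or.inl hy)]
        simp
      have h2 : Rr x - ((om : ℂ) * I) * T x = 0 := by
        simp only [hR, hT]
        rw [hG0 x (Or.inl hx'), hG'0 x (Or.inl hx')]
        simp
      rw [h2]
      exact (hasDerivAt_const x (0 : ℂ)).congr_of_eventuallyEq h1
  -- continuity
  have hSc : ContinuousOn (fun x => ((Real.exp (σ * Sx c x) : ℝ) : ℂ)) {x | 1 / 4 < |x|} :=
    fun x hx => (((hd_Sx hc hx).const_mul σ).exp.ofReal_comp).continuousAt.continuousWithinAt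
  have hEc : ContinuousOn (Ex c om) {x | 1 / 4 < |x|} :=
    fun x hx => (hd_Ex hc om hx).continuousAt.continuousWithinAt
  have hqc : Continuous (qq c lam) := by
    rw [continuous_iff_continuousAt]
    exact fun x => (hd_qq hl x).continuousAt
  have hq'c : Continuous (qq' c lam) := by
    unfold qq'
    have := cont_P4 (c := c)
    refine Continuous.div (by fun_prop) (by fun_prop) fun x => ?_
    positivity
  have hSx' : ContinuousOn (Sx' c) {x | 1 / 4 < |x|} := by
    have h : ∀ i, ContinuousOn (fun x => 1 / (x + c i) - 1 / x) {x | 1 / 4 < |x|} := by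
      intro i
      refine ContinuousOn.sub (continuousOn_const.div (by fun_prop) fun x hx => add_ne (hc i) hx)
        (continuousOn_const.div (by fun_prop) fun x hx => x_ne hx)
    exact (((h 0).add (h 1)).add (h 2)).add (h 3)
  have hkc : ContinuousOn (fun x => ((kap c σ x * qq c lam x : ℝ) : ℂ)) {x | 1 / 4 < |x|} :=
    fun x hx =>
      ((hd_kap hc σ hx).mul (hd_qq hl x)).ofReal_comp.continuousAt.continuousWithinAt
  have hPic : Continuous (Pi4 c) := by
    rw [continuous_iff_continuousAt]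
    exact fun x => (hd_Pi4 x).continuousAt
  have hPi'c : Continuous (Pi4' c) := by
    unfold Pi4'
    fun_prop
  have hSc0 : ContinuousOn (fun x => Real.exp (σ * Sx c x)) {x | 1 / 4 < |x|} :=
    fun x hx => ((hd_Sx hc hx).const_mul σ).exp.continuousAt.continuousWithinAt
  have hkc' : ContinuousOn (fun x => ((kap' c σ x * qq c lam x + kap c σ x * qq' c lam x : ℝ) : ℂ))
      {x | 1 / 4 < |x|} := by
    refine Complex.continuous_ofReal.comp_continuousOn ?_
    have e1 : ContinuousOn (kap' c σ) {x | 1 / 4 < |x|} :=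
      ((hSc0.mul (continuousOn_const.mul hSx')).mul hPic.continuousOn).add
        (hSc0.mul hPi'c.continuousOn)
    have e2 : ContinuousOn (kap c σ) {x | 1 / 4 < |x|} := hSc0.mul hPic.continuousOn
    exact (e1.mul hqc.continuousOn).add (e2.mul hq'c.continuousOn)
  have hFc : Continuous F := by
    rw [continuous_iff_continuousAt]
    exact fun x => (hFd x).continuousAt
  have hRc : Continuous Rr := by
    refine glue_cont ?_ fun x hx => ?_
    · exact ((hG'c.continuousOn.mul hkc).add (hGc.continuousOn.mul hkc')).mul hEc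
    · simp only [hR]
      rw [hG0 x (Or.inl hx), hG'0 x (Or.inl hx)]
      simp
  have hTc : Continuous T := by
    refine glue_cont ?_ fun x hx => ?_
    · refine ((hGc.continuousOn.mul hSc).mul hEc).mul ?_
      refine (Complex.continuous_ofReal.comp ?_).continuousOn
      have := cont_P4 (c := c)
      refine Continuous.div (by fun_prop) (by fun_prop) fun x => ?_
      positivity
    · simp only [hT]
      rw [hG0 x (Or.inl hx)]
      simp
  have hF3 : ∀ x, 3 < |x| → F x = 0 := fun x hx => by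
    simp only [hF]
    rw [hG0 x (Or.inr hx)]
    simp
  have hR3 : ∀ x, 3 < |x| → Rr x = 0 := fun x hx => by
    simp only [hR]
    rw [hG0 x (Or.inr hx), hG'0 x (Or.inr hx)]
    simp
  have hT3 : ∀ x, 3 < |x| → T x = 0 := fun x hx => by
    simp only [hT]
    rw [hG0 x (Or.inr hx)]
    simp
  have hFi := hFc.integrable_of_hasCompactSupport (μ := volume) (supp_compact hF3)
  have hRi := hRc.integrable_of_hasCompactSupport (μ := volume) (supp_compact hR3)
  have hTi := hTc.integrable_of_hasCompactSupport (μ := volume) (supp_compact hT3)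
  have hzero := integral_eq_zero_of_hasDerivAt_of_integrable hFd
    (hRi.sub (hTi.const_mul _)) hFi
  rw [integral_sub hRi (hTi.const_mul _), integral_const_mul, sub_eq_zero] at hzero
  have hn : |om| * ‖∫ x, T x‖ = ‖∫ x, Rr x‖ := by
    rw [hzero, norm_mul, norm_mul, Complex.norm_I, mul_one, Complex.norm_real, Real.norm_eq_abs]
  -- the bound
  have hRb : ‖∫ x, Rr x‖ ≤ ∫ x in (-3 : ℝ)..3, (K0 * B) * (1 / lam +
      |2 * al4 c * x + 2 * be4 c| / (P4 c x ^ 2 + lam ^ 2)) := by
    have hK : 0 ≤ K0 := by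
      unfold K0
      positivity
    refine norm_int_le hR3 (fun x => ?_) ?_
    · by_cases hx : |x| < 1 / 2 ∨ 3 < |x|
      · have : Rr x = 0 := by
          simp only [hR]
          rw [hG0 x hx, hG'0 x hx]
          simp
        rw [this, norm_zero]
        positivity
      · rw [not_or, not_lt, not_lt] at hx
        have h1 := kap_bd hc hσ hx.1 hx.2
        have h2 := kap'_bd hc hσ hx.1 hx.2
        have h3 := abs_qq_le (c := c) hl x
        have h4 := abs_qq'_le (c := c) hl x
        simp only [hR]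
        rw [norm_mul, norm_Ex, mul_one]
        refine (norm_add_le _ _).trans ?_
        rw [norm_mul, norm_mul, Complex.norm_real, Complex.norm_real, Real.norm_eq_abs,
          Real.norm_eq_abs, abs_mul]
        have h5 : |kap' c σ x * qq c lam x + kap c σ x * qq' c lam x| ≤
            K0 * (1 / (2 * lam)) + K0 *
              (|2 * al4 c * x + 2 * be4 c| / (P4 c x ^ 2 + lam ^ 2)) := by
          refine (abs_add_le _ _).trans ?_
          rw [abs_mul, abs_mul]
          gcongr
        calc ‖deriv G x‖ * (|kap c σ x| * |qq c lam x|) + ‖G x‖ *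
              |kap' c σ x * qq c lam x + kap c σ x * qq' c lam x|
            ≤ B * (K0 * (1 / (2 * lam))) + B * (K0 * (1 / (2 * lam)) + K0 *
              (|2 * al4 c * x + 2 * be4 c| / (P4 c x ^ 2 + lam ^ 2))) := by
              gcongr
              · exact hG' x
              · exact hGb x
          _ = K0 * B * (1 / lam +
              |2 * al4 c * x + 2 * be4 c| / (P4 c x ^ 2 + lam ^ 2)) := by
              field_simp
              ring
    · refine continuous_const.mul (continuous_const.add ?_)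
      have := cont_P4 (c := c)
      refine Continuous.div (by fun_prop) (by fun_prop) fun x => ?_
      positivity
  have hvar := quad_var (al4 c) (be4 c) (ga4 c) lam hl (-3) 3 (by norm_num)
  have hii : IntervalIntegrable (fun x : ℝ =>
      |2 * al4 c * x + 2 * be4 c| / (P4 c x ^ 2 + lam ^ 2)) volume (-3) 3 := by
    apply Continuous.intervalIntegrable
    have := cont_P4 (c := c)
    refine Continuous.div (by fun_prop) (by fun_prop) fun x => ?_
    positivity
  rw [intervalIntegral.integral_const_mul, intervalIntegral.integral_add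
    intervalIntegrable_const hii, intervalIntegral.integral_const] at hRb
  have hK : 0 ≤ K0 := by
    unfold K0
    positivity
  have hfin : ‖∫ x, Rr x‖ ≤ 13 * (K0 * B) / lam := by
    have hpi := Real.pi_lt_d2
    have h1 : ∫ x in (-3 : ℝ)..3, |2 * al4 c * x + 2 * be4 c| / (P4 c x ^ 2 + lam ^ 2) ≤
        2 * (Real.pi / lam) := hvar
    calc ‖∫ x, Rr x‖ ≤ K0 * B * ((3 - -3 : ℝ) • (1 / lam) +
          ∫ x in (-3 : ℝ)..3, |2 * al4 c * x + 2 * be4 c| / (P4 c x ^ 2 + lam ^ 2)) := hRb
      _ ≤ K0 * B * ((3 - -3 : ℝ) • (1 / lam) + 2 * (Real.pi / lam)) := by gcongr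
      _ ≤ K0 * B * (13 / lam) := by
        gcongr
        rw [smul_eq_mul]
        have : (3 - -3 : ℝ) * (1 / lam) + 2 * (Real.pi / lam) = (6 + 2 * Real.pi) / lam := by
          ring
        rw [this]
        gcongr
        linarith
      _ = 13 * (K0 * B) / lam := by ring
  have hom' : 0 < |om| := abs_pos.2 hom
  rw [le_div_iff₀ (by positivity)]
  calc ‖∫ x, T x‖ * (|om| * lam) = (|om| * ‖∫ x, T x‖) * lam := by ring
    _ = ‖∫ x, Rr x‖ * lam := by rw [hn]
    _ ≤ 13 * (K0 * B) / lam * lam := by gcongr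
    _ = 13 * (K0 * B) := by field_simp

end Core

end Pool.Agent.H52.BH
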